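import Pool.Agent.TH684.DI.Symm

/-!
# OR and AND as sensitive functions of the answers
-/

set_option autoImplicit false

namespace Pool.Agent.TH684.DI

open Pool.Agent.NPC Pool.Agent.H251R5.PQ

/-- OR. -/
def gor (w : List Bool) : Bool := decide (true ∈ w)

/-- AND. -/
def gand (w : List Bool) : Bool := !decide (false ∈ w)

theorem gor_poly : Poly gor := NPC.Poly.decide_mem (NPC.Poly.const true) NPC.Poly.id

theorem gand_poly : Poly gand :=
  NPC.Poly.not (NPC.Poly.decide_mem (NPC.Poly.const false) NPC.Poly.id)

theorem gor_lin : LinSens gor := by
  refine linSens_of_symm (fun u v h => ?_) fun t ht => ?_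
  · exact decide_eq_decide.2 h.mem_iff
  · refine ⟨List.replicate t false, List.replicate t true, List.length_replicate,
      List.length_replicate, ?_⟩
    unfold gor
    rw [decide_eq_false (fun h => by simpa using List.eq_of_mem_replicate h),
      decide_eq_true (List.mem_replicate.2 ⟨by omega, rfl⟩)]
    simp

theorem gand_lin : LinSens gand := by
  refine linSens_of_symm (fun u v h => ?_) fun t ht => ?_
  · exact congrArg Bool.not (decide_eq_decide.2 h.mem_iff)
  · refine ⟨List.replicate t true, List.replicate t false, List.length_replicate,
      List.length_replicate, ?_⟩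
    unfold gand
    rw [decide_eq_false (fun h => by simpa using List.eq_of_mem_replicate h),
      decide_eq_true (List.mem_replicate.2 ⟨by omega, rfl⟩)]
    simp

theorem someIn_eq (A : Set (List Bool)) : SomeIn A = Val gor A :=
  funext fun qs => propext (someIn_iff qs)

theorem allIn_eq (A : Set (List Bool)) : AllIn A = Val gand A :=
  funext fun qs => propext (allIn_iff qs)

end Pool.Agent.TH684.DI
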