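import Pool.Agent.TH684.DI.Sens

/-!
# Compression of sensitive functions of the answers: there is a collision
-/

set_option autoImplicit false

namespace Pool.Agent.TH684.DI

open Pool.Agent.NPC Pool.Agent.H251R5.PQ Pool.Agent.W901.AT Pool.Agent.H579R2.Spt
open Pool.Agent.TH684.EX Pool.Agent.TH684.CX
open Pool.Agent.TH684.LT (exists_pow_add_bound)
open Pool.Agent.W920.LN (isSome_poly)

/-! ### The sensitive positions with the more frequent value -/

/-- The sensitive positions with the entry `e`. -/
def posn (g : List Bool → Bool) (w : List Bool) (e : Bool) : List ℕ :=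
  ((List.range w.length).filter (fun j => g (flip w j) != g w)).filter
    (fun j => w.getD j false == e)

theorem exists_posn (g : List Bool → Bool) (w : List Bool) :
    ∃ e, sens g w ≤ 2 * (posn g w e).length := by
  have h := List.length_eq_length_filter_add
    (l := (List.range w.length).filter (fun j => g (flip w j) != g w))
    (fun j => w.getD j false == true)
  have h2 : (((List.range w.length).filter (fun j => g (flip w j) != g w)).filter
      (fun j => !(w.getD j false == true))).length = (posn g w false).length := by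
    unfold posn
    congr 1
    refine List.filter_congr fun j _ => ?_
    cases w.getD j false <;> rfl
  rw [h2] at h
  change sens g w = (posn g w true).length + (posn g w false).length at h
  rcases le_total (posn g w true).length (posn g w false).length with h3 | h3
  · exact ⟨false, by omega⟩
  · exact ⟨true, by omega⟩

theorem posn_nodup (g : List Bool → Bool) (w : List Bool) (e : Bool) : (posn g w e).Nodup :=
  (List.nodup_range.filter _).filter _

theorem mem_posn {g : List Bool → Bool} {w : List Bool} {e : Bool} {j : ℕ} (h : j ∈ posn g w e) :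
    j < w.length ∧ g (flip w j) ≠ g w ∧ w.getD j false = e := by
  unfold posn at h
  rw [List.mem_filter, List.mem_filter, List.mem_range] at h
  exact ⟨h.1.1, by simpa using h.1.2, by simpa using h.2⟩

theorem posn_length_le (g : List Bool → Bool) (w : List Bool) (e : Bool) :
    (posn g w e).length ≤ w.length := by
  unfold posn
  exact (List.length_filter_le _ _).trans ((List.length_filter_le _ _).trans
    (by rw [List.length_range]))

/-! ### The lists of the collision -/

theorem val_two (i : ℕ) (e : Bool) (a : ℕ) :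
    val i e (a + 2) = bif decide (a = i) then !e else e := by
  unfold val
  rw [decide_eq_false (show ¬ a + 2 = 0 by omega), decide_eq_false (show ¬ a + 2 = 1 by omega),
    cond_false, cond_false]
  by_cases h : a = i
  · simp [h]
  · simp [h]

theorem val_const (i : ℕ) (e b : Bool) : val i e (if b = true then 1 else 0) = b := by
  cases b <;> simp [val]

theorem block_inj {M k k' a a' : ℕ} (ha : a < M) (ha' : a' < M) :
    k * M + a = k' * M + a' ↔ k = k' ∧ a = a' := by
  constructor
  · intro h
    have hM : 0 < M := (Nat.zero_le _).trans_lt ha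
    have h2 : (k * M + a) / M = k := by
      rw [Nat.add_comm, Nat.add_mul_div_right _ _ hM, Nat.div_eq_of_lt ha, zero_add]
    have h3 : (k' * M + a') / M = k' := by
      rw [Nat.add_comm, Nat.add_mul_div_right _ _ hM, Nat.div_eq_of_lt ha', zero_add]
    rw [h, h3] at h2
    subst h2
    exact ⟨rfl, by omega⟩
  · rintro ⟨rfl, rfl⟩
    rfl

/-- The item at the position `r`. -/
def itm (w : List Bool) (J : List ℕ) (M : ℕ) (s : ℕ → ℕ) (r : ℕ) : ℕ :=
  if J.idxOf r < J.length then J.idxOf r * M + s (J.idxOf r) + 2
  else if w.getD r false = true then 1 else 0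

/-- The items. -/
def itms (w : List Bool) (J : List ℕ) (M : ℕ) (s : ℕ → ℕ) : List ℕ :=
  (List.range w.length).map (itm w J M s)

theorem itms_length (w : List Bool) (J : List ℕ) (M : ℕ) (s : ℕ → ℕ) :
    (itms w J M s).length = w.length := by
  unfold itms
  rw [List.length_map, List.length_range]

theorem mem_of_idxOf {J : List ℕ} {r : ℕ} (h : J.idxOf r < J.length) : r ∈ J :=
  List.idxOf_lt_length_iff.1 h

theorem val_itm {w : List Bool} {J : List ℕ} {M : ℕ} {s t : ℕ → ℕ} {k : ℕ} {e : Bool}
    (hJ : ∀ r ∈ J, w.getD r false = e) (hs : s k < M) (ht : ∀ k < J.length, t k < M) (r : ℕ) :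
    val (k * M + s k) e (itm w J M t r) =
      if J.idxOf r < J.length ∧ J.idxOf r = k ∧ t k = s k then !(w.getD r false)
      else w.getD r false := by
  unfold itm
  by_cases h : J.idxOf r < J.length
  · rw [if_pos h, val_two, hJ r (mem_of_idxOf h)]
    by_cases h2 : J.idxOf r = k ∧ t k = s k
    · rw [if_pos ⟨h, h2⟩]
      obtain ⟨h3, h4⟩ := h2
      subst h3
      rw [h4]
      simp
    · rw [if_neg fun h3 => h2 h3.2]
      have h5 : ¬ (J.idxOf r * M + t (J.idxOf r) = k * M + s k) := by
        rw [block_inj (ht _ h) hs]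
        rintro ⟨rfl, h6⟩
        exact h2 ⟨rfl, h6⟩
      rw [decide_eq_false h5, cond_false]
  · rw [if_neg h, val_const]
    exact (if_neg fun h3 => h h3.1).symm

theorem flip_eq_map (w : List Bool) (j : ℕ) :
    flip w j = (List.range w.length).map
      (fun r => if r = j then !(w.getD r false) else w.getD r false) := by
  unfold flip
  refine List.ext_getElem (by simp) fun r h1 h2 => ?_
  rw [List.length_set] at h1
  rw [List.getElem_set, List.getElem_map, List.getElem_range]
  by_cases h : j = r
  · subst h
    simp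
  · rw [if_neg h, if_neg fun h3 => h h3.symm, List.getD_eq_getElem _ _ h1]

theorem self_eq_map (w : List Bool) : w = (List.range w.length).map (fun r => w.getD r false) := by
  refine List.ext_getElem (by simp) fun r h1 h2 => ?_
  rw [List.getElem_map, List.getElem_range, List.getD_eq_getElem _ _ h1]

theorem map_self {w : List Bool} {J : List ℕ} {M : ℕ} {s : ℕ → ℕ} {k : ℕ} {e : Bool}
    (hJ : ∀ r ∈ J, w.getD r false = e) (hn : J.Nodup) (hs : ∀ k < J.length, s k < M)
    (hk : k < J.length) : (itms w J M s).map (val (k * M + s k) e) = flip w J[k] := by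
  rw [flip_eq_map]
  unfold itms
  rw [List.map_map]
  refine List.map_congr_left fun r _ => ?_
  rw [Function.comp_apply, val_itm hJ (hs k hk) hs]
  have h : (J.idxOf r < J.length ∧ J.idxOf r = k ∧ s k = s k) ↔ r = J[k] := by
    constructor
    · rintro ⟨h1, h2, -⟩
      subst h2
      exact (List.getElem_idxOf h1).symm
    · rintro rfl
      have h1 := List.get_idxOf hn ⟨k, hk⟩
      simp only [List.get_eq_getElem] at h1
      exact ⟨by rw [h1]; exact hk, h1, rfl⟩
  by_cases h1 : r = J[k]
  · rw [if_pos (h.2 h1), if_pos h1]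
  · rw [if_neg fun h2 => h1 (h.1 h2), if_neg h1]

theorem map_other {w : List Bool} {J : List ℕ} {M : ℕ} {s t : ℕ → ℕ} {k : ℕ} {e : Bool}
    (hJ : ∀ r ∈ J, w.getD r false = e) (hs : s k < M) (ht : ∀ k < J.length, t k < M)
    (hne : t k ≠ s k) : (itms w J M t).map (val (k * M + s k) e) = w := by
  conv_rhs => rw [self_eq_map w]
  unfold itms
  rw [List.map_map]
  refine List.map_congr_left fun r _ => ?_
  rw [Function.comp_apply, val_itm hJ hs ht, if_neg fun h => hne h.2.2]

theorem itms_lt {w : List Bool} {J : List ℕ} {M m : ℕ} {s : ℕ → ℕ} (hs : ∀ k < J.length, s k < M)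
    (hm : J.length * M ≤ m) : ∀ a ∈ itms w J M s, a < m + 2 := by
  intro a ha
  obtain ⟨r, -, rfl⟩ := List.mem_map.1 ha
  unfold itm
  by_cases h : J.idxOf r < J.length
  · rw [if_pos h]
    have h1 := hs _ h
    have h2 : (J.idxOf r + 1) * M ≤ J.length * M := Nat.mul_le_mul_right _ h
    rw [Nat.add_mul, one_mul] at h2
    omega
  · rw [if_neg h]
    split <;> omega

/-! ### The collision -/

/-- The bound for the guesses. -/
noncomputable def Pg3 (p : Polynomial ℕ) : Polynomial ℕ := Pg p + Polynomial.C 4

variable {g : List Bool → Bool} {A B : Set (List Bool)} {V : List Bool × List (List Bool) → Bool}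
  {Y : List Bool → Option (List Bool)} {p : Polynomial ℕ}

theorem exists_guess3 (qs : List (List Bool)) (nn w : List Bool) (S M m Z : ℕ) (e : Bool)
    (hM : 2 ^ (S + 1) ≤ M ^ (posn g w e).length) (hqs : qs.length = m + 2)
    (hm : (posn g w e).length * M ≤ m)
    (hV : ∀ L : List (List Bool), L.length = w.length → (∀ y ∈ L, y ∈ qs) → V (nn, L) = true ∧
      ∃ v, SOut Y p (bits L) v ∧ v.length ≤ S)
    (hZ1 : w.length ≤ Z) (hZ2 : nn.length ≤ Z) (hZ3 : m + 2 ≤ Z) (hZ4 : ∀ y ∈ qs, y.length ≤ Z) :
    ∃ G : G3, chk3 g V Y p (qs, G) = true ∧ (bits G).length ≤ (Pg3 p).eval Z := by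
  classical
  set J := posn g w e with hJ
  have hJe : ∀ r ∈ J, w.getD r false = e := fun r hr => (mem_posn hr).2.2
  have hJn : J.Nodup := posn_nodup g w e
  set ex : (Fin J.length → Fin M) → ℕ → ℕ :=
    fun s k => if h : k < J.length then (s ⟨k, h⟩).1 else 0 with hex
  have hex1 : ∀ s, ∀ k < J.length, ex s k < M := fun s k hk => by
    rw [hex]
    simp only [dif_pos hk]
    exact (s ⟨k, hk⟩).2
  have hmem : ∀ s, ∀ y ∈ sel qs (itms w J M (ex s)), y ∈ qs := by
    intro s y hy
    obtain ⟨a, ha, rfl⟩ := List.mem_map.1 hy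
    have h1 := itms_lt (hex1 s) hm a ha
    rw [List.getD_eq_getElem _ _ (by omega)]
    exact List.getElem_mem _
  have hl : ∀ s, (sel qs (itms w J M (ex s))).length = w.length := fun s => by
    unfold sel
    rw [List.length_map, itms_length]
  choose v hv hv2 using fun s => (hV (sel qs (itms w J M (ex s))) (hl s) (hmem s)).2
  choose u hu1 hu2 using hv
  obtain ⟨s, s', hne, hss⟩ := pigeon J.length M S hM v hv2
  obtain ⟨k, hk⟩ := Function.ne_iff.1 hne
  have hki : k.1 * M + ex s k.1 < m := by
    have h1 := hex1 s k.1 k.2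
    have h2 : (k.1 + 1) * M ≤ J.length * M := Nat.mul_le_mul_right _ k.2
    rw [Nat.add_mul, one_mul] at h2
    omega
  have hkne : ex s' k.1 ≠ ex s k.1 := by
    rw [hex]
    simp only [dif_pos k.2]
    exact fun h => hk (Fin.ext h.symm)
  refine ⟨(nn, ((itms w J M (ex s), itms w J M (ex s')), ((u s, u s'), (k.1 * M + ex s k.1, e)))),
    ?_, ?_⟩
  · unfold chk3
    simp only [Bool.and_eq_true, decide_eq_true_eq, Bool.not_eq_true', decide_eq_false_iff_not]
    refine ⟨⟨(side3_iff _ _ _ _).2 ⟨(hV _ (hl s) (hmem s)).1, hu1 s, ?_⟩,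
      (side3_iff _ _ _ _).2 ⟨(hV _ (hl s') (hmem s')).1, hu1 s', ?_⟩⟩, ⟨by omega, ?_⟩, ?_, ?_⟩
    · rw [hqs]
      exact itms_lt (hex1 s) hm
    · rw [hqs]
      exact itms_lt (hex1 s') hm
    · rw [map_self hJe hJn (hex1 s) k.2, map_other hJe (hex1 s k.1 k.2) (hex1 s') hkne]
      exact (mem_posn (List.getElem_mem k.2)).2.1
    · rw [hu2 s]
      rfl
    · rw [hu2 s, hu2 s', hss]
  · have hsI : ∀ r, sz (itms w J M (ex r)) ≤ Z * (4 * Z + 2) + 1 := by
      intro r
      have h1 := sz_le_length_mul (itms w J M (ex r)) (4 * Z + 1) (fun a ha =>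
        sz_t_nat_le a Z ((itms_lt (hex1 r) hm a ha).le.trans hZ3))
      rw [itms_length] at h1
      have h2 : w.length * (4 * Z + 1 + 1) ≤ Z * (4 * Z + 2) := Nat.mul_le_mul_right _ hZ1
      omega
    have hsu : ∀ r, sz (u r) ≤ 4 * p.eval (Z * (4 * Z + 2) + 1) + 1 := by
      intro r
      have h1 := sz_listBool_le (u r)
      have h2 := hu1 r
      have h3 : (bits (sel qs (itms w J M (ex r)))).length ≤ Z * (4 * Z + 2) + 1 := by
        rw [bits_length]
        have h4 := sz_le_length_mul (sel qs (itms w J M (ex r))) (4 * Z + 1) (fun y hy' => by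
          have h5 := sz_listBool_le y
          have h6 := hZ4 y (hmem r y hy')
          omega)
        rw [hl] at h4
        have h5 : w.length * (4 * Z + 1 + 1) ≤ Z * (4 * Z + 2) := Nat.mul_le_mul_right _ hZ1
        omega
      have h4 := eval_mono p h3
      omega
    have hsn : sz nn ≤ 4 * Z + 1 := by
      have h1 := sz_listBool_le nn
      omega
    have hsi : sz (k.1 * M + ex s k.1) ≤ 4 * Z + 1 := sz_t_nat_le _ _ (by omega)
    have hse : sz e ≤ 3 := sz_bool_le e
    rw [bits_length, Pg3, Polynomial.eval_add, Polynomial.eval_C, Pg_eval]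
    simp only [sz_pair]
    have h1 := hsI s
    have h2 := hsI s'
    have h3 := hsu s
    have h4 := hsu s'
    omega

/-- The general form. -/
theorem nfeasible_of_guess {y1 y0 : List Bool} (h1 : y1 ∈ A) (h0 : y0 ∉ A) (hg : Poly g)
    (hVp : Poly V) (hY : Poly Y)
    (hs : ∀ (nn : List Bool) (L : List (List Bool)), V (nn, L) = true → ∀ v, SOut Y p (bits L) v →
      (v ∈ B ↔ Val g A L))
    (R : Polynomial ℕ)
    (hR : ∀ (n m : ℕ), R.eval n ≤ m → ∃ (nn w : List Bool) (S M : ℕ) (e : Bool),
      2 ^ (S + 1) ≤ M ^ (posn g w e).length ∧ (posn g w e).length * M ≤ m ∧ w.length ≤ m ∧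
      nn.length ≤ m + y0.length + y1.length ∧ n ≤ m ∧
      ∀ L : List (List Bool), L.length = w.length →
        (∀ y ∈ L, y.length ≤ n + y0.length + y1.length) → V (nn, L) = true ∧
          ∃ v, SOut Y p (bits L) v ∧ v.length ≤ S) :
    NFeasible (Exclude L3 A) := by
  obtain ⟨b, hb⟩ := exists_pow_add_bound R
  obtain ⟨c, hc⟩ := exists_pow_add_bound (2 * (Polynomial.X ^ b + Polynomial.C b))
  have hce : ∀ n, 2 * (n ^ b + b) ≤ n ^ c + c := fun n => by
    have := hc n
    simpa using this
  refine ⟨yc3 g y1 y0 V Y p,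
    (Pg3 p).comp (Polynomial.X + Polynomial.C (y0.length + y1.length + 2)), b, c,
    polyTime_bits (yc3_poly hg y1 y0 hVp hY p), fun n qs hqs hlen => ⟨?_, ?_⟩⟩
  · obtain ⟨nn, w, S, M, e, hM, hm, hwm, hnn, hnm, hL⟩ := hR n qs.length (hqs ▸ hb n)
    have hqZ : qs.length ≤ (bits qs).length := by
      have e1 := length_lt_sz qs
      have e3 := bits_length qs
      omega
    obtain ⟨G, hG1, hG2⟩ := exists_guess3 (V := V) (Y := Y) (p := p) (y0 :: y1 :: qs) nn w S M
      qs.length ((bits qs).length + (y0.length + y1.length + 2)) e hM rfl hm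
      (fun L hL1 hL2 => hL L hL1 (fun y hy => by
        rcases List.mem_cons.1 (hL2 y hy) with rfl | h
        · omega
        · rcases List.mem_cons.1 h with rfl | h
          · omega
          · have := hlen y h
            omega)) (by omega) (by omega) (by omega) (fun y hy => by
        rcases List.mem_cons.1 hy with rfl | h
        · omega
        · rcases List.mem_cons.1 h with rfl | h
          · omega
          · have := hlen y h
            omega)
    refine ⟨bif G.2.2.2.2 then G.2.2.2.1 + qs.length else G.2.2.2.1, bits G, ?_, ?_⟩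
    · rw [Polynomial.eval_comp, Polynomial.eval_add, Polynomial.eval_X, Polynomial.eval_C]
      exact hG2
    · unfold yc3
      rw [unpair_pairBits, dl_bits, dg3_bits, hG1, cond_true]
  · rintro l ⟨w, -, hl⟩
    unfold yc3 at hl
    rw [unpair_pairBits] at hl
    simp only [dl_bits] at hl
    cases hc : chk3 g V Y p (y0 :: y1 :: qs, dg3 w)
    · rw [hc, cond_false] at hl
      exact absurd hl (by simp)
    · rw [hc, cond_true] at hl
      obtain ⟨h2, h3⟩ := chk3_sound h1 h0 hs qs (dg3 w) hc
      rw [← Option.some.inj hl]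
      refine ⟨?_, h3⟩
      have h4 := hce n
      rw [← hqs] at h4
      cases (dg3 w).2.2.2.2
      · rw [cond_false]
        omega
      · rw [cond_true]
        omega

end Pool.Agent.TH684.DI
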