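import Pool.Agent.TH684.DI.Sens3

/-!
# Symmetric functions are sensitive
-/

set_option autoImplicit false

namespace Pool.Agent.TH684.DI

/-- The vector of length `m` with `k` ones, followed by zeros. -/
def ones (m k : ℕ) : List Bool := List.replicate k true ++ List.replicate (m - k) false

theorem ones_length {m k : ℕ} (h : k ≤ m) : (ones m k).length = m := by
  unfold ones
  rw [List.length_append, List.length_replicate, List.length_replicate]
  omega

theorem ones_count (m k : ℕ) : (ones m k).count true = k := by
  unfold ones
  rw [List.count_append, List.count_replicate, List.count_replicate]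
  simp

theorem ones_count' (m k : ℕ) : (ones m k).count false = m - k := by
  unfold ones
  rw [List.count_append, List.count_replicate, List.count_replicate]
  simp

theorem perm_ones (v : List Bool) : v.Perm (ones v.length (v.count true)) := by
  rw [List.perm_iff_count]
  have h := List.count_not_add_count v true
  simp only [Bool.not_true] at h
  intro a
  cases a
  · rw [ones_count']
    omega
  · rw [ones_count]

variable {g : List Bool → Bool}

theorem symm_eq (hg : Symm g) {v : List Bool} {m k : ℕ} (h1 : v.length = m)
    (h2 : v.count true = k) : g v = g (ones m k) := by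
  subst h1 h2
  exact hg _ _ (perm_ones v)

theorem exists_step (hg : Symm g) (hn : NonConst g) {m : ℕ} (hm : 1 ≤ m) :
    ∃ k < m, g (ones m k) ≠ g (ones m (k + 1)) := by
  by_contra hcon
  push Not at hcon
  have h1 : ∀ k ≤ m, g (ones m k) = g (ones m 0) := by
    intro k
    induction k with
    | zero => intro _; rfl
    | succ k ih =>
      intro hk
      rw [← hcon k (by omega)]
      exact ih (by omega)
  obtain ⟨u, v, hu, hv, hne⟩ := hn m hm
  apply hne
  have hu2 : u.count true ≤ m := hu ▸ List.count_le_length
  have hv2 : v.count true ≤ m := hv ▸ List.count_le_length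
  rw [symm_eq hg hu rfl, symm_eq hg hv rfl, h1 _ hu2, h1 _ hv2]

theorem count_le_sens {w : List Bool} {e : Bool}
    (h : ∀ j < w.length, w.getD j false = e → g (flip w j) ≠ g w) : w.count e ≤ sens g w := by
  have h1 : w.count e = ((List.range w.length).filter (fun j => w.getD j false == e)).length := by
    conv_lhs => rw [self_eq_map w]
    rw [List.count, List.countP_map, List.countP_eq_length_filter]
    rfl
  rw [h1]
  unfold sens
  have h2 : (List.range w.length).filter (fun j => w.getD j false == e) =
      ((List.range w.length).filter (fun j => g (flip w j) != g w)).filter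
        (fun j => w.getD j false == e) := by
    rw [List.filter_filter]
    refine List.filter_congr fun j hj => ?_
    have hj' := List.mem_range.1 hj
    cases h3 : (w.getD j false == e)
    · rfl
    · have h4 := h j hj' (by simpa using h3)
      simpa using h4
  rw [h2]
  exact List.length_filter_le _ _

theorem flip_count_one {w : List Bool} {j : ℕ} (hj : j < w.length) (h : w.getD j false = true) :
    (flip w j).count true + 1 = w.count true := by
  unfold flip
  rw [h, List.count_set hj]
  rw [List.getD_eq_getElem _ _ hj] at h
  have h2 : 1 ≤ w.count true := List.count_pos_iff.2 (h ▸ List.getElem_mem hj)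
  simp [h]
  omega

theorem flip_count_zero {w : List Bool} {j : ℕ} (hj : j < w.length) (h : w.getD j false = false) :
    (flip w j).count true = w.count true + 1 := by
  unfold flip
  rw [h, List.count_set hj]
  rw [List.getD_eq_getElem _ _ hj] at h
  simp [h]

theorem flip_length (w : List Bool) (j : ℕ) : (flip w j).length = w.length := by
  unfold flip
  rw [List.length_set]

/-- **Symmetric functions are sensitive.** -/
theorem linSens_of_symm (hg : Symm g) (hn : NonConst g) : LinSens g := by
  refine ⟨2, fun t ht => ?_⟩
  obtain ⟨k, hk, hne⟩ := exists_step hg hn ht
  rcases le_total t (2 * (t - k)) with h | h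
  · refine ⟨ones t k, ones_length hk.le, h.trans (Nat.mul_le_mul_left _ ?_)⟩
    rw [← ones_count' t k]
    refine count_le_sens fun j hj hj2 => ?_
    rw [symm_eq hg (v := flip (ones t k) j) (m := t) (k := k + 1)
      (by rw [flip_length, ones_length hk.le]) (by rw [flip_count_zero hj hj2, ones_count])]
    exact hne.symm
  · refine ⟨ones t (k + 1), ones_length hk, (show t ≤ 2 * (k + 1) by omega).trans
      (Nat.mul_le_mul_left _ ?_)⟩
    conv_lhs => rw [← ones_count t (k + 1)]
    refine count_le_sens fun j hj hj2 => ?_
    rw [symm_eq hg (v := flip (ones t (k + 1)) j) (m := t) (k := k)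
      (by rw [flip_length, ones_length hk]) (by
        have h1 := flip_count_one hj hj2
        rw [ones_count] at h1
        omega)]
    exact hne

end Pool.Agent.TH684.DI
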