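import Pool.Agent.TH684.CX.DefsN
import Mathlib

/-!
# Distillation and compression of many instances: definitions

Polynomial time is Mathlib's `Turing.TM2ComputableInPolyTime` (through `Pool.Agent.NPC.PolyTime`).
-/

set_option autoImplicit false

namespace Pool.Agent.TH684.DI

open Pool.Agent.NPC Pool.Agent.H251R5.PQ

/-- Some string of the list is in `A`. -/
def SomeIn (A : Set (List Bool)) (qs : List (List Bool)) : Prop := ∃ y ∈ qs, y ∈ A

/-- All strings of the list are in `A`. -/
def AllIn (A : Set (List Bool)) (qs : List (List Bool)) : Prop := ∀ y ∈ qs, y ∈ A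

/-- `Distills Q B`: a polynomial-time algorithm `D` maps every nonempty list of strings to one string,
which is in `B` if and only if the list has the property `Q`, and whose length is at most polynomial in
the length of the longest string of the list, no matter how long the list is. So
`Distills (SomeIn A) B` means that `A` has an OR-distillation into `B`, `Distills (SomeIn A) A` that it
has an OR-distillation, and `Distills (AllIn A) B` that it has an AND-distillation into `B`. -/
def Distills (Q : List (List Bool) → Prop) (B : Set (List Bool)) : Prop :=
  ∃ (D : List Bool → List Bool) (q : Polynomial ℕ), PolyTime D ∧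
    ∀ (n : ℕ) (qs : List (List Bool)), qs ≠ [] → (∀ y ∈ qs, y.length ≤ n) →
      (D (bits qs)).length ≤ q.eval n ∧ (D (bits qs) ∈ B ↔ Q qs)

/-- The string `v` is an output, on the input `z`, of the nondeterministic algorithm which guesses a
string `w` of length at most `p |z|` and then outputs `v` if `Y (z, w) = some v`, and nothing if
`Y (z, w) = none`. -/
def SOut (Y : List Bool → Option (List Bool)) (p : Polynomial ℕ) (z v : List Bool) : Prop :=
  ∃ w : List Bool, w.length ≤ p.eval z.length ∧ Y (pairBits z w) = some v

/-- The same as `Distills` for a nondeterministic polynomial-time algorithm: it has at least one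
output on every nonempty list, and all its outputs are right. -/
def NDistills (Q : List (List Bool) → Prop) (B : Set (List Bool)) : Prop :=
  ∃ (Y : List Bool → Option (List Bool)) (p q : Polynomial ℕ), PolyTime (fun z => bits (Y z)) ∧
    ∀ (n : ℕ) (qs : List (List Bool)), qs ≠ [] → (∀ y ∈ qs, y.length ≤ n) →
      (∃ v, SOut Y p (bits qs) v) ∧
        ∀ v, SOut Y p (bits qs) v → v.length ≤ q.eval n ∧ (v ∈ B ↔ Q qs)

/-- A nondeterministic polynomial-time algorithm which only has to work for lists of `t = n ^ b + b`
strings of length at most `n`, and whose outputs may have `c t log₂ (n + 2)` bits. -/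
def NCompresses (Q : List (List Bool) → Prop) (B : Set (List Bool)) : Prop :=
  ∃ (Y : List Bool → Option (List Bool)) (p : Polynomial ℕ) (b c : ℕ),
    PolyTime (fun z => bits (Y z)) ∧
    ∀ (n : ℕ) (qs : List (List Bool)), qs.length = n ^ b + b → (∀ y ∈ qs, y.length ≤ n) →
      (∃ v, SOut Y p (bits qs) v) ∧ ∀ v, SOut Y p (bits qs) v →
        v.length ≤ c * qs.length * Nat.log 2 (n + 2) ∧ (v ∈ B ↔ Q qs)

end Pool.Agent.TH684.DI
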