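import Pool.Agent.TH684.DI.Defs
import Pool.Agent.TH684.CX.ThmN

/-!
# Collisions of a compression algorithm
-/

set_option autoImplicit false

namespace Pool.Agent.TH684.DI

open Pool.Agent.NPC Pool.Agent.H251R5.PQ Pool.Agent.W901.AT Pool.Agent.H579R2.Spt
open Pool.Agent.TH684.EX Pool.Agent.TH684.CX
open Pool.Agent.TH684.LT (exists_pow_add_bound)
open Pool.Agent.W920.LN (isSome_poly)

/-- The strings at the given positions. -/
def sel (qs : List (List Bool)) (I : List ℕ) : List (List Bool) := I.map (fun j => qs.getD j [])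

/-- The position `i` belongs to one of two selections on which `Q` takes the same value, and not to
the other one. -/
def Sep (Q : List (List Bool) → Prop) (qs : List (List Bool)) (i : ℕ) : Prop :=
  i < qs.length ∧ ∃ I I' : List ℕ, i ∈ I ∧ i ∉ I' ∧ (∀ j ∈ I', j < qs.length) ∧
    (Q (sel qs I) ↔ Q (sel qs I'))

theorem notOnly_of_sep {A : Set (List Bool)} (qs : List (List Bool)) (i : ℕ)
    (h : Sep (SomeIn A) qs i) : NotOnly A qs i := by
  obtain ⟨hi, I, I', h1, h2, h3, h4⟩ := h
  refine ⟨hi, fun h5 => ?_⟩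
  have h6 : SomeIn A (sel qs I) :=
    ⟨qs.getD i [], List.mem_map.2 ⟨i, h1, rfl⟩, (h5 i hi).2 rfl⟩
  obtain ⟨y, hy, hyA⟩ := h4.1 h6
  obtain ⟨j, hj, rfl⟩ := List.mem_map.1 hy
  have h7 := (h5 j (h3 j hj)).1 hyA
  exact h2 (h7 ▸ hj)

/-- The vectors with exactly one zero. -/
def Lco : Set (List Bool) := lang (fun q : ℕ × (ℕ × ℕ) => q.2.2 ≠ q.2.1)

theorem lco_inP : InP Lco :=
  inPP_of (d := fun q : ℕ × (ℕ × ℕ) => !decide (q.2.2 = q.2.1))
    (NPC.Poly.not (NPC.Poly.decide_eq (NPC.Poly.snd (NPC.Poly.snd NPC.Poly.id))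
      (NPC.Poly.fst (NPC.Poly.snd NPC.Poly.id)))) (fun q => by simp)

theorem vec_lco (m l : ℕ) : vec Lco m l = (List.range m).map (fun i => decide (i ≠ l)) := by
  classical
  unfold vec
  refine List.map_congr_left fun i _ => ?_
  exact decide_eq_decide.2 bits_mem_lang

theorem exclude_of_sep {A : Set (List Bool)} (qs : List (List Bool)) (i : ℕ)
    (h : Sep (AllIn A) qs i) : Exclude Lco A qs i := by
  classical
  obtain ⟨hi, I, I', h1, h2, h3, h4⟩ := h
  intro h5
  rw [vec_lco] at h5
  have h6 : ∀ j < qs.length, (qs.getD j [] ∈ A ↔ j ≠ i) := by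
    intro j hj
    have h7 := congrArg (fun l => l.getD j false) h5
    simp only [answers] at h7
    rw [List.getD_eq_getElem _ _ (by simpa using hj), List.getD_eq_getElem _ _ (by simpa using hj),
      List.getElem_map, List.getElem_map, List.getElem_range] at h7
    rw [List.getD_eq_getElem _ _ hj]
    exact decide_eq_decide.1 h7
  have h7 : AllIn A (sel qs I') := by
    intro y hy
    obtain ⟨j, hj, rfl⟩ := List.mem_map.1 hy
    exact (h6 j (h3 j hj)).2 fun h8 => h2 (h8 ▸ hj)
  have h8 := h4.2 h7 (qs.getD i []) (List.mem_map.2 ⟨i, h1, rfl⟩)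
  exact (h6 i hi).1 h8 rfl

/-! ### The algorithm -/

/-- Guesses: a unary number, two selections, two guesses of the given algorithm, a position. -/
abbrev Gs : Type := List Bool × ((List ℕ × List ℕ) × ((List Bool × List Bool) × ℕ))

/-- Decoding of a guess. -/
def dg (w : List Bool) : Gs := (unbits Gs w).getD default

theorem dg_poly : Poly dg := NPC.Poly.optGetD poly_unbits (NPC.Poly.const _)

theorem dg_bits (g : Gs) : dg (bits g) = g := by
  unfold dg
  rw [unbits_bits, Option.getD_some]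

/-- One side of the check. -/
noncomputable def side (p : Polynomial ℕ) (b : ℕ) (qs : List (List Bool)) (nn : List Bool) (I : List ℕ)
    (u : List Bool) : Bool :=
  decide (I.length = (Polynomial.X ^ b + Polynomial.C b : Polynomial ℕ).eval nn.length) &&
    ((sel qs I).all (fun y => decide (y.length ≤ nn.length)) &&
      decide (u.length ≤ p.eval (bits (sel qs I)).length))

/-- The check of a guess. -/
noncomputable def chk (Y : List Bool → Option (List Bool)) (p : Polynomial ℕ) (b : ℕ)
    (t : List (List Bool) × Gs) : Bool :=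
  (side p b t.1 t.2.1 t.2.2.1.1 t.2.2.2.1.1 && side p b t.1 t.2.1 t.2.2.1.2 t.2.2.2.1.2) &&
    ((decide (t.2.2.2.2 < t.1.length) && (decide (t.2.2.2.2 ∈ t.2.2.1.1) &&
      !decide (t.2.2.2.2 ∈ t.2.2.1.2))) &&
      ((t.2.2.1.2.all (fun j => decide (j < t.1.length))) &&
        ((Y (pairBits (bits (sel t.1 t.2.2.1.1)) t.2.2.2.1.1)).isSome &&
          decide (Y (pairBits (bits (sel t.1 t.2.2.1.1)) t.2.2.2.1.1) =
            Y (pairBits (bits (sel t.1 t.2.2.1.2)) t.2.2.2.1.2)))))

/-- The algorithm that guesses a collision. -/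
noncomputable def yc (Y : List Bool → Option (List Bool)) (p : Polynomial ℕ) (b : ℕ) (z : List Bool) :
    Option ℕ :=
  bif chk Y p b (dl (unpair z).1, dg (unpair z).2) then some (dg (unpair z).2).2.2.2 else none

section PolyLemmas

variable {α : Type} [TEnc α]

theorem sel_poly {f : α → List (List Bool)} {g : α → List ℕ} (hf : Poly f) (hg : Poly g) :
    Poly (fun x => sel (f x) (g x)) := by
  unfold sel
  refine NPC.Poly.map (l := g) (F := fun x j => (f x).getD j []) hg ?_
  exact NPC.Poly.getD (hf.comp (NPC.Poly.fst NPC.Poly.id)) (NPC.Poly.snd NPC.Poly.id)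
    (NPC.Poly.const [])

theorem side_poly (p : Polynomial ℕ) (b : ℕ) {f : α → List (List Bool)} {nn u : α → List Bool}
    {g : α → List ℕ} (hf : Poly f) (hn : Poly nn) (hg : Poly g) (hu : Poly u) :
    Poly (fun x => side p b (f x) (nn x) (g x) (u x)) := by
  have hs := sel_poly hf hg
  unfold side
  refine NPC.Poly.and (NPC.Poly.decide_eq (NPC.Poly.length hg)
    ((UPoly.length hn).eval _).toPoly) (NPC.Poly.and ?_ ?_)
  · exact NPC.Poly.all (l := fun x => sel (f x) (g x))
      (p := fun x y => decide (y.length ≤ (nn x).length)) hs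
      (NPC.Poly.decide_le (NPC.Poly.length (NPC.Poly.snd NPC.Poly.id))
        (NPC.Poly.length (hn.comp (NPC.Poly.fst NPC.Poly.id))))
  · exact NPC.Poly.decide_le (NPC.Poly.length hu)
      ((UPoly.length (bits_poly.comp hs)).eval p).toPoly

end PolyLemmas

theorem chk_poly {Y : List Bool → Option (List Bool)} (hY : Poly Y) (p : Polynomial ℕ) (b : ℕ) :
    Poly (chk Y p b) := by
  have e1 : Poly (fun t : List (List Bool) × Gs => t.1) := NPC.Poly.fst NPC.Poly.id
  have e2 : Poly (fun t : List (List Bool) × Gs => t.2) := NPC.Poly.snd NPC.Poly.id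
  have en := NPC.Poly.fst e2
  have e3 := NPC.Poly.snd e2
  have eI := NPC.Poly.fst (NPC.Poly.fst e3)
  have eI' := NPC.Poly.snd (NPC.Poly.fst e3)
  have eu := NPC.Poly.fst (NPC.Poly.fst (NPC.Poly.snd e3))
  have eu' := NPC.Poly.snd (NPC.Poly.fst (NPC.Poly.snd e3))
  have ei := NPC.Poly.snd (NPC.Poly.snd e3)
  have y1 := hY.comp (H622R2.poly_pairBits (bits_poly.comp (sel_poly e1 eI)) eu)
  have y2 := hY.comp (H622R2.poly_pairBits (bits_poly.comp (sel_poly e1 eI')) eu')
  unfold chk
  refine NPC.Poly.and (NPC.Poly.and (side_poly p b e1 en eI eu) (side_poly p b e1 en eI' eu'))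
    (NPC.Poly.and (NPC.Poly.and (NPC.Poly.decide_lt ei (NPC.Poly.length e1))
      (NPC.Poly.and (NPC.Poly.decide_mem ei eI) (NPC.Poly.not (NPC.Poly.decide_mem ei eI'))))
      (NPC.Poly.and ?_ (NPC.Poly.and (isSome_poly y1) (NPC.Poly.decide_eq y1 y2))))
  exact NPC.Poly.all (l := fun t : List (List Bool) × Gs => t.2.2.1.2)
    (p := fun t j => decide (j < t.1.length)) eI' (NPC.Poly.decide_lt (NPC.Poly.snd NPC.Poly.id)
      (NPC.Poly.length (e1.comp (NPC.Poly.fst NPC.Poly.id))))

theorem yc_poly {Y : List Bool → Option (List Bool)} (hY : Poly Y) (p : Polynomial ℕ) (b : ℕ) :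
    Poly (yc Y p b) := by
  have e1 : Poly (fun z : List Bool => dl (unpair z).1) := dl_poly.comp (NPC.Poly.fst poly_unpair)
  have e2 : Poly (fun z : List Bool => dg (unpair z).2) := dg_poly.comp (NPC.Poly.snd poly_unpair)
  unfold yc
  exact NPC.Poly.cond ((chk_poly hY p b).comp (NPC.Poly.pair e1 e2))
    (NPC.Poly.some (NPC.Poly.snd (NPC.Poly.snd (NPC.Poly.snd e2)))) (NPC.Poly.const none)

end Pool.Agent.TH684.DI
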