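import Pool.Agent.TH684.DI.Coll

/-!
# Compression gives exclusion
-/

set_option autoImplicit false

namespace Pool.Agent.TH684.DI

open Pool.Agent.NPC Pool.Agent.H251R5.PQ Pool.Agent.W901.AT Pool.Agent.H579R2.Spt
open Pool.Agent.TH684.EX Pool.Agent.TH684.CX
open Pool.Agent.TH684.LT (exists_pow_add_bound)

/-- The pigeonhole principle for strings of bounded length. -/
theorem pigeon (t M S : ℕ) (hM : 2 ^ (S + 1) ≤ M ^ t) (f : (Fin t → Fin M) → List Bool)
    (hf : ∀ s, (f s).length ≤ S) : ∃ s s', s ≠ s' ∧ f s = f s' := by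
  classical
  have hcard : Fintype.card (Σ k : Fin (S + 1), List.Vector Bool k) <
      Fintype.card (Fin t → Fin M) := by
    rw [Fintype.card_sigma, Fintype.card_fun, Fintype.card_fin, Fintype.card_fin]
    refine lt_of_lt_of_le ?_ hM
    simp only [card_vector, Fintype.card_bool]
    rw [Fin.sum_univ_eq_sum_range (fun k => 2 ^ k) (S + 1)]
    exact Nat.geomSum_lt le_rfl (fun k hk => Finset.mem_range.1 hk)
  obtain ⟨s, s', hne, h⟩ := Fintype.exists_ne_map_eq_of_card_lt
    (fun s => (⟨⟨(f s).length, Nat.lt_succ_of_le (hf s)⟩, ⟨f s, rfl⟩⟩ :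
      Σ k : Fin (S + 1), List.Vector Bool k)) hcard
  exact ⟨s, s', hne, congrArg (fun q : (Σ k : Fin (S + 1), List.Vector Bool k) => q.2.1) h⟩

/-- The positions of a selection of one string from each of `t` blocks of length `M`. -/
def idx (t M : ℕ) (s : Fin t → Fin M) : List ℕ := List.ofFn (fun j : Fin t => j.1 * M + (s j).1)

theorem mem_idx {t M : ℕ} {s : Fin t → Fin M} {i : ℕ} :
    i ∈ idx t M s ↔ ∃ j : Fin t, j.1 * M + (s j).1 = i := by
  unfold idx
  exact List.mem_ofFn

theorem idx_lt {t M : ℕ} {s : Fin t → Fin M} {i : ℕ} (h : i ∈ idx t M s) : i < t * M := by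
  obtain ⟨j, rfl⟩ := mem_idx.1 h
  have h1 := (s j).2
  have h2 : (j.1 + 1) * M ≤ t * M := Nat.mul_le_mul_right _ j.2
  rw [Nat.add_mul, one_mul] at h2
  omega

theorem idx_ne {t M : ℕ} {s s' : Fin t → Fin M} {j : Fin t} (h : s j ≠ s' j) :
    j.1 * M + (s j).1 ∉ idx t M s' := by
  intro h1
  obtain ⟨k, hk⟩ := mem_idx.1 h1
  have hM : 0 < M := (Nat.zero_le _).trans_lt (s j).2
  have h2 : (k.1 * M + (s' k).1) / M = k.1 := by
    rw [Nat.add_comm, Nat.add_mul_div_right _ _ hM, Nat.div_eq_of_lt (s' k).2, zero_add]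
  have h3 : (j.1 * M + (s j).1) / M = j.1 := by
    rw [Nat.add_comm, Nat.add_mul_div_right _ _ hM, Nat.div_eq_of_lt (s j).2, zero_add]
  rw [hk, h3] at h2
  have h4 : j = k := Fin.ext h2
  subst h4
  exact h (Fin.ext (by omega))

variable {Q : List (List Bool) → Prop} {B : Set (List Bool)}
  {Y : List Bool → Option (List Bool)} {p : Polynomial ℕ} {b c : ℕ}

/-- The specification of a compression algorithm. -/
def Spec (Q : List (List Bool) → Prop) (B : Set (List Bool))
    (Y : List Bool → Option (List Bool)) (p : Polynomial ℕ) (b c : ℕ) : Prop :=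
  ∀ (n : ℕ) (qs : List (List Bool)), qs.length = n ^ b + b → (∀ y ∈ qs, y.length ≤ n) →
    (∃ v, SOut Y p (bits qs) v) ∧ ∀ v, SOut Y p (bits qs) v →
      v.length ≤ c * qs.length * Nat.log 2 (n + 2) ∧ (v ∈ B ↔ Q qs)

theorem side_iff (qs : List (List Bool)) (nn : List Bool) (I : List ℕ) (u : List Bool) :
    side p b qs nn I u = true ↔ I.length = nn.length ^ b + b ∧
      (∀ y ∈ sel qs I, y.length ≤ nn.length) ∧ u.length ≤ p.eval (bits (sel qs I)).length := by
  unfold side
  simp only [Bool.and_eq_true, decide_eq_true_eq, List.all_eq_true, Polynomial.eval_add,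
    Polynomial.eval_pow, Polynomial.eval_X, Polynomial.eval_C]

theorem chk_sound (hs : Spec Q B Y p b c) (qs : List (List Bool)) (g : Gs)
    (h : chk Y p b (qs, g) = true) : Sep Q qs g.2.2.2 := by
  obtain ⟨nn, ⟨I, I'⟩, ⟨u, u'⟩, i⟩ := g
  unfold chk at h
  simp only [Bool.and_eq_true, decide_eq_true_eq, Bool.not_eq_true', decide_eq_false_iff_not,
    List.all_eq_true] at h
  obtain ⟨⟨h1, h2⟩, ⟨h3, h4, h5⟩, h6, h7, h8⟩ := h
  obtain ⟨a1, a2, a3⟩ := (side_iff _ _ _ _).1 h1
  obtain ⟨b1, b2, b3⟩ := (side_iff _ _ _ _).1 h2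
  obtain ⟨v, hv⟩ := Option.isSome_iff_exists.1 h7
  have hl : ∀ J : List ℕ, (sel qs J).length = J.length := fun J => by
    unfold sel
    rw [List.length_map]
  have e1 := ((hs nn.length (sel qs I) (by rw [hl, a1]) a2).2 v ⟨u, a3, hv⟩).2
  have e2 := ((hs nn.length (sel qs I') (by rw [hl, b1]) b2).2 v ⟨u', b3, h8 ▸ hv⟩).2
  exact ⟨h3, I, I', h4, h5, h6, e1.symm.trans e2⟩

/-- The bound for the guesses. -/
noncomputable def Pg (p : Polynomial ℕ) : Polynomial ℕ :=
  (Polynomial.C 4 * Polynomial.X + 1) +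
    (((Polynomial.X * (Polynomial.C 4 * Polynomial.X + 2) + 1) +
      (Polynomial.X * (Polynomial.C 4 * Polynomial.X + 2) + 1) + 1) +
    (((Polynomial.C 4 * p.comp (Polynomial.X * (Polynomial.C 4 * Polynomial.X + 2) + 1) + 1) +
      (Polynomial.C 4 * p.comp (Polynomial.X * (Polynomial.C 4 * Polynomial.X + 2) + 1) + 1) + 1) +
    (Polynomial.C 4 * Polynomial.X + 1) + 1) + 1) + 1

theorem Pg_eval (p : Polynomial ℕ) (Z : ℕ) : (Pg p).eval Z =
    (4 * Z + 1) + (((Z * (4 * Z + 2) + 1) + (Z * (4 * Z + 2) + 1) + 1) +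
      (((4 * p.eval (Z * (4 * Z + 2) + 1) + 1) + (4 * p.eval (Z * (4 * Z + 2) + 1) + 1) + 1) +
        (4 * Z + 1) + 1) + 1) + 1 := by
  simp only [Pg, Polynomial.eval_add, Polynomial.eval_mul, Polynomial.eval_C, Polynomial.eval_X,
    Polynomial.eval_one, Polynomial.eval_comp, Polynomial.eval_ofNat]

/-- **There is a collision.** -/
theorem exists_guess (hs : Spec Q B Y p b c) (n M : ℕ) (hM : 2 * (n + 2) ^ c ≤ M)
    (qs : List (List Bool)) (hn : n ≤ qs.length) (hqs : (n ^ b + b) * M ≤ qs.length)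
    (hlen : ∀ y ∈ qs, y.length ≤ n) :
    ∃ g : Gs, chk Y p b (qs, g) = true ∧ (bits g).length ≤ (Pg p).eval (bits qs).length := by
  classical
  set t := n ^ b + b with ht
  have ht1 : 1 ≤ t := by
    rcases Nat.eq_zero_or_pos b with rfl | hb
    · simp [ht]
    · omega
  have hM1 : 1 ≤ M := le_trans (by
    have h0 : 0 < (n + 2) ^ c := pow_pos (show 0 < n + 2 by omega) c
    omega) hM
  have hlI : ∀ s : Fin t → Fin M, (idx t M s).length = t := fun s => by
    unfold idx
    rw [List.length_ofFn]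
  have hl : ∀ s : Fin t → Fin M, (sel qs (idx t M s)).length = t := fun s => by
    unfold sel
    rw [List.length_map, hlI]
  have hy : ∀ s : Fin t → Fin M, ∀ y ∈ sel qs (idx t M s), y.length ≤ n := by
    intro s y hy
    obtain ⟨j, hj, rfl⟩ := List.mem_map.1 hy
    have hj2 : j < qs.length := (idx_lt hj).trans_le hqs
    rw [List.getD_eq_getElem _ _ hj2]
    exact hlen _ (List.getElem_mem hj2)
  choose v hv using fun s : Fin t → Fin M => (hs n (sel qs (idx t M s)) (hl s) (hy s)).1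
  have hv2 : ∀ s, (v s).length ≤ c * t * Nat.log 2 (n + 2) := fun s => by
    have := ((hs n (sel qs (idx t M s)) (hl s) (hy s)).2 (v s) (hv s)).1
    rwa [hl] at this
  choose u hu1 hu2 using hv
  have hcount : 2 ^ (c * t * Nat.log 2 (n + 2) + 1) ≤ M ^ t := by
    have h1 : 2 ^ Nat.log 2 (n + 2) ≤ n + 2 := Nat.pow_log_le_self 2 (by omega)
    have h2 : 2 ^ (c * t * Nat.log 2 (n + 2)) ≤ ((n + 2) ^ c) ^ t := by
      rw [← pow_mul, show c * t * Nat.log 2 (n + 2) = Nat.log 2 (n + 2) * (c * t) by ring, pow_mul]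
      exact Nat.pow_le_pow_left h1 _
    calc 2 ^ (c * t * Nat.log 2 (n + 2) + 1) = 2 ^ 1 * 2 ^ (c * t * Nat.log 2 (n + 2)) := by ring
      _ ≤ 2 ^ t * ((n + 2) ^ c) ^ t :=
          Nat.mul_le_mul (Nat.pow_le_pow_right (by norm_num) ht1) h2
      _ = (2 * (n + 2) ^ c) ^ t := (mul_pow _ _ _).symm
      _ ≤ M ^ t := Nat.pow_le_pow_left hM t
  obtain ⟨s, s', hne, hss⟩ := pigeon t M _ hcount v hv2
  obtain ⟨j, hj⟩ := Function.ne_iff.1 hne
  have hmem : j.1 * M + (s j).1 ∈ idx t M s := mem_idx.2 ⟨j, rfl⟩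
  have hlt : j.1 * M + (s j).1 < qs.length := (idx_lt hmem).trans_le hqs
  refine ⟨(List.replicate n true, ((idx t M s, idx t M s'), ((u s, u s'), j.1 * M + (s j).1))),
    ?_, ?_⟩
  · unfold chk
    simp only [Bool.and_eq_true, decide_eq_true_eq, Bool.not_eq_true', decide_eq_false_iff_not,
      List.all_eq_true]
    refine ⟨⟨(side_iff _ _ _ _).2 ⟨by rw [hlI, List.length_replicate],
      by rw [List.length_replicate]; exact hy s, hu1 s⟩,
      (side_iff _ _ _ _).2 ⟨by rw [hlI, List.length_replicate],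
      by rw [List.length_replicate]; exact hy s', hu1 s'⟩⟩, ⟨hlt, hmem, idx_ne hj⟩,
      fun k hk => (idx_lt hk).trans_le hqs, ?_, ?_⟩
    · rw [hu2 s]
      rfl
    · rw [hu2 s, hu2 s', hss]
  · set Z := (bits qs).length with hZ
    have hqZ : qs.length ≤ Z := by
      have e1 := length_lt_sz qs
      have e3 := bits_length qs
      omega
    have htq : t ≤ qs.length := le_trans (by nlinarith) hqs
    have htZ : t ≤ Z := htq.trans hqZ
    have hsI : ∀ r : Fin t → Fin M, sz (idx t M r) ≤ Z * (4 * Z + 2) + 1 := by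
      intro r
      have h1 := sz_le_length_mul (idx t M r) (4 * Z + 1) (fun k hk =>
        sz_t_nat_le k Z (((idx_lt hk).trans_le hqs).le.trans hqZ))
      rw [hlI] at h1
      have h2 : t * (4 * Z + 1 + 1) ≤ Z * (4 * Z + 2) := Nat.mul_le_mul_right _ htZ
      omega
    have hsu : ∀ r : Fin t → Fin M, sz (u r) ≤ 4 * p.eval (Z * (4 * Z + 2) + 1) + 1 := by
      intro r
      have h1 := sz_listBool_le (u r)
      have h2 := hu1 r
      have h3 : (bits (sel qs (idx t M r))).length ≤ Z * (4 * Z + 2) + 1 := by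
        rw [bits_length]
        have h4 := sz_le_length_mul (sel qs (idx t M r)) (4 * Z + 1) (fun y hy' => by
          have h5 := sz_listBool_le y
          have h6 := hy r y hy'
          omega)
        rw [hl] at h4
        have h5 : t * (4 * Z + 1 + 1) ≤ Z * (4 * Z + 2) := Nat.mul_le_mul_right _ htZ
        omega
      have h4 := eval_mono p h3
      omega
    have hsn : sz (List.replicate n true) ≤ 4 * Z + 1 := by
      have h1 := sz_listBool_le (List.replicate n true)
      rw [List.length_replicate] at h1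
      omega
    have hsi : sz (j.1 * M + (s j).1) ≤ 4 * Z + 1 :=
      sz_t_nat_le _ _ (hlt.le.trans hqZ)
    rw [bits_length, Pg_eval]
    simp only [sz_pair]
    have h1 := hsI s
    have h2 := hsI s'
    have h3 := hsu s
    have h4 := hsu s'
    omega

/-- **A compression algorithm excludes a position.** -/
theorem nfeasible_of_ncompresses (h : NCompresses Q B) : NFeasible (Sep Q) := by
  obtain ⟨Y, p, b, c, hY, hs⟩ := h
  have hs' : Spec Q B Y p b c := hs
  obtain ⟨b', hb'⟩ := exists_pow_add_bound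
    ((Polynomial.X ^ b + Polynomial.C b) * (2 * (Polynomial.X + 2) ^ (c + 1)))
  have hbe : ∀ n, (n ^ b + b) * (2 * (n + 2) ^ (c + 1)) ≤ n ^ b' + b' := fun n => by
    have := hb' n
    simpa using this
  refine ⟨yc Y p b, Pg p, b', b', polyTime_bits (yc_poly (poly_of_polyTime hY) p b),
    fun n qs hqs hlen => ⟨?_, ?_⟩⟩
  · have h1 := hbe n
    have ht1 : 1 ≤ n ^ b + b := by
      rcases Nat.eq_zero_or_pos b with rfl | hb
      · simp
      · omega
    have hM : 2 * (n + 2) ^ c ≤ 2 * (n + 2) ^ (c + 1) :=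
      Nat.mul_le_mul_left _ (Nat.pow_le_pow_right (by omega) (by omega))
    have hn : n ≤ qs.length := by
      have h2 : n + 2 ≤ (n + 2) ^ (c + 1) := Nat.le_self_pow (by omega) _
      have h3 : 2 * (n + 2) ^ (c + 1) ≤ (n ^ b + b) * (2 * (n + 2) ^ (c + 1)) :=
        Nat.le_mul_of_pos_left _ ht1
      omega
    obtain ⟨g, hg1, hg2⟩ := exists_guess hs' n _ hM qs hn (by omega) hlen
    refine ⟨g.2.2.2, bits g, hg2, ?_⟩
    unfold yc
    rw [unpair_pairBits, dl_bits, dg_bits, hg1, cond_true]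
  · rintro l ⟨w, -, hl⟩
    unfold yc at hl
    rw [unpair_pairBits] at hl
    simp only [dl_bits] at hl
    cases hc : chk Y p b (qs, dg w)
    · rw [hc, cond_false] at hl
      exact absurd hl (by simp)
    · rw [hc, cond_true] at hl
      have h1 := chk_sound hs' qs (dg w) hc
      rw [Option.some.inj hl] at h1
      exact ⟨hqs ▸ h1.1.le, h1⟩

end Pool.Agent.TH684.DI
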