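import Pool.Agent.TH684.DI.Defs

/-!
# Sensitive functions of the answers: definitions
-/

set_option autoImplicit false

namespace Pool.Agent.TH684.DI

open Pool.Agent.NPC Pool.Agent.H251R5.PQ

/-- The value of `g` on the vector of the answers to the questions `y ∈ A`, `y` in the list. -/
def Val (g : List Bool → Bool) (A : Set (List Bool)) (qs : List (List Bool)) : Prop :=
  g (answers A qs) = true

/-- The vector `w` with the entry number `j` changed. -/
def flip (w : List Bool) (j : ℕ) : List Bool := w.set j (!(w.getD j false))

/-- The sensitivity of `g` at `w`: the number of entries of `w` the change of which changes the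
value. -/
def sens (g : List Bool → Bool) (w : List Bool) : ℕ :=
  ((List.range w.length).filter (fun j => g (flip w j) != g w)).length

/-- For every `n` there is a vector of length at most `n ^ d + d` at which `g` has sensitivity at
least `n`. -/
def PolySens (g : List Bool → Bool) : Prop :=
  ∃ d : ℕ, ∀ n : ℕ, ∃ w : List Bool, w.length ≤ n ^ d + d ∧ n ≤ sens g w

/-- For every `t ≥ 1` there is a vector of length `t` at which `g` has sensitivity at least `t / d`. -/
def LinSens (g : List Bool → Bool) : Prop :=
  ∃ d : ℕ, ∀ t ≥ 1, ∃ w : List Bool, w.length = t ∧ t ≤ d * sens g w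

/-- The function `g` depends on the number of ones (and the length) only. -/
def Symm (g : List Bool → Bool) : Prop := ∀ u v : List Bool, u.Perm v → g u = g v

/-- The function `g` is constant on `{0, 1} ^ t` for no `t ≥ 1`. -/
def NonConst (g : List Bool → Bool) : Prop :=
  ∀ t ≥ 1, ∃ u v : List Bool, u.length = t ∧ v.length = t ∧ g u ≠ g v

end Pool.Agent.TH684.DI
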