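import Pool.Agent.TH684.DI.Thm
import Pool.Agent.TH684.DI.SensDefs

/-!
# Compression of sensitive functions of the answers: the algorithm
-/

set_option autoImplicit false

namespace Pool.Agent.TH684.DI

open Pool.Agent.NPC Pool.Agent.H251R5.PQ Pool.Agent.W901.AT Pool.Agent.H579R2.Spt
open Pool.Agent.TH684.EX Pool.Agent.TH684.CX
open Pool.Agent.TH684.LT (exists_pow_add_bound)
open Pool.Agent.W920.LN (isSome_poly)

theorem polySens_of_linSens {g : List Bool → Bool} (h : LinSens g) : PolySens g := by
  obtain ⟨d, h⟩ := h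
  obtain ⟨b, hb⟩ := exists_pow_add_bound (Polynomial.C d * Polynomial.X + 1)
  refine ⟨b, fun n => ?_⟩
  obtain ⟨w, hw1, hw2⟩ := h (d * n + 1) (by omega)
  have h1 := hb n
  simp only [Polynomial.eval_add, Polynomial.eval_mul, Polynomial.eval_C, Polynomial.eval_X,
    Polynomial.eval_one] at h1
  refine ⟨w, by omega, ?_⟩
  by_contra h2
  have h3 : d * sens g w ≤ d * n := Nat.mul_le_mul_left _ (by omega)
  omega

/-! ### The vectors with one exceptional entry -/

/-- The value at the entry with the number `a`: zero, one, and then `e`, except for `!e` at `i`. -/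
def val (i : ℕ) (e : Bool) (a : ℕ) : Bool :=
  bif decide (a = 0) then false else bif decide (a = 1) then true else
    bif decide (a = i + 2) then !e else e

theorem answers_sel {A : Set (List Bool)} {y1 y0 : List Bool} (h1 : y1 ∈ A) (h0 : y0 ∉ A)
    {qs : List (List Bool)} {i : ℕ} {e : Bool}
    (h : ∀ j < qs.length, (qs.getD j [] ∈ A ↔ (bif decide (j = i) then !e else e) = true))
    (P : List ℕ) (hP : ∀ a ∈ P, a < qs.length + 2) :
    answers A (sel (y0 :: y1 :: qs) P) = P.map (val i e) := by
  classical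
  unfold answers sel
  rw [List.map_map]
  refine List.map_congr_left fun a ha => ?_
  have ha' := hP a ha
  simp only [Function.comp_apply, val]
  match a with
  | 0 => simp [h0]
  | 1 => simp [h1]
  | j + 2 =>
    have h2 := h j (by omega)
    simp only [List.getD_cons_succ, Nat.add_eq_zero_iff, OfNat.ofNat_ne_zero, and_false,
      decide_false, cond_false, Nat.add_right_cancel_iff]
    rw [decide_eq_false (show ¬ j + 2 = 1 by omega), cond_false]
    cases hc : (bif decide (j = i) then !e else e)
    · rw [hc] at h2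
      exact decide_eq_false fun h3 => by simpa using h2.1 h3
    · rw [hc] at h2
      exact decide_eq_true (h2.2 rfl)

/-! ### The algorithm -/

/-- Guesses: a unary number, two selections, two guesses of the given algorithm, a position and the
kind of the vector. -/
abbrev G3 : Type := List Bool × ((List ℕ × List ℕ) × ((List Bool × List Bool) × (ℕ × Bool)))

/-- Decoding of a guess. -/
def dg3 (w : List Bool) : G3 := (unbits G3 w).getD default

theorem dg3_poly : Poly dg3 := NPC.Poly.optGetD poly_unbits (NPC.Poly.const _)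

theorem dg3_bits (g : G3) : dg3 (bits g) = g := by
  unfold dg3
  rw [unbits_bits, Option.getD_some]

/-- One side of the check. -/
noncomputable def side3 (V : List Bool × List (List Bool) → Bool) (p : Polynomial ℕ)
    (nn : List Bool) (qs : List (List Bool)) (P : List ℕ) (u : List Bool) : Bool :=
  V (nn, sel qs P) && (decide (u.length ≤ p.eval (bits (sel qs P)).length) &&
    P.all (fun a => decide (a < qs.length)))

/-- The check of a guess; the first two strings of the list are fixed. -/
noncomputable def chk3 (g : List Bool → Bool) (V : List Bool × List (List Bool) → Bool)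
    (Y : List Bool → Option (List Bool)) (p : Polynomial ℕ) (t : List (List Bool) × G3) : Bool :=
  (side3 V p t.2.1 t.1 t.2.2.1.1 t.2.2.2.1.1 && side3 V p t.2.1 t.1 t.2.2.1.2 t.2.2.2.1.2) &&
    ((decide (t.2.2.2.2.1 + 2 < t.1.length) &&
      !decide (g (t.2.2.1.1.map (val t.2.2.2.2.1 t.2.2.2.2.2)) =
        g (t.2.2.1.2.map (val t.2.2.2.2.1 t.2.2.2.2.2)))) &&
      ((Y (pairBits (bits (sel t.1 t.2.2.1.1)) t.2.2.2.1.1)).isSome &&
        decide (Y (pairBits (bits (sel t.1 t.2.2.1.1)) t.2.2.2.1.1) =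
          Y (pairBits (bits (sel t.1 t.2.2.1.2)) t.2.2.2.1.2))))

/-- The algorithm that guesses a collision. -/
noncomputable def yc3 (g : List Bool → Bool) (y1 y0 : List Bool)
    (V : List Bool × List (List Bool) → Bool) (Y : List Bool → Option (List Bool))
    (p : Polynomial ℕ) (z : List Bool) : Option ℕ :=
  bif chk3 g V Y p (y0 :: y1 :: dl (unpair z).1, dg3 (unpair z).2) then
    some (bif (dg3 (unpair z).2).2.2.2.2 then
      (dg3 (unpair z).2).2.2.2.1 + (dl (unpair z).1).length else (dg3 (unpair z).2).2.2.2.1)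
  else none

section PolyLemmas

variable {α : Type} [TEnc α]

theorem side3_poly {V : List Bool × List (List Bool) → Bool} (hV : Poly V) (p : Polynomial ℕ)
    {nn u : α → List Bool} {f : α → List (List Bool)} {P : α → List ℕ}
    (hn : Poly nn) (hf : Poly f) (hP : Poly P) (hu : Poly u) :
    Poly (fun x => side3 V p (nn x) (f x) (P x) (u x)) := by
  have hs := sel_poly hf hP
  unfold side3
  refine NPC.Poly.and (hV.comp (NPC.Poly.pair hn hs)) (NPC.Poly.and
    (NPC.Poly.decide_le (NPC.Poly.length hu) ((UPoly.length (bits_poly.comp hs)).eval p).toPoly) ?_)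
  exact NPC.Poly.all (l := P) (p := fun x a => decide (a < (f x).length)) hP
    (NPC.Poly.decide_lt (NPC.Poly.snd NPC.Poly.id)
      (NPC.Poly.length (hf.comp (NPC.Poly.fst NPC.Poly.id))))

theorem val_poly {P : α → List ℕ} {i : α → ℕ} {e : α → Bool} (hP : Poly P) (hi : Poly i)
    (he : Poly e) : Poly (fun x => (P x).map (val (i x) (e x))) := by
  refine NPC.Poly.map (l := P) (F := fun x a => val (i x) (e x) a) hP ?_
  have e1 : Poly (fun q : α × ℕ => q.2) := NPC.Poly.snd NPC.Poly.id
  have e2 : Poly (fun q : α × ℕ => i q.1) := hi.comp (NPC.Poly.fst NPC.Poly.id)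
  have e3 : Poly (fun q : α × ℕ => e q.1) := he.comp (NPC.Poly.fst NPC.Poly.id)
  unfold val
  exact NPC.Poly.cond (NPC.Poly.decide_eq e1 (NPC.Poly.const 0)) (NPC.Poly.const false)
    (NPC.Poly.cond (NPC.Poly.decide_eq e1 (NPC.Poly.const 1)) (NPC.Poly.const true)
      (NPC.Poly.cond (NPC.Poly.decide_eq e1 (NPC.Poly.add e2 (NPC.Poly.const 2)))
        (NPC.Poly.not e3) e3))

end PolyLemmas

theorem chk3_poly {g : List Bool → Bool} (hg : Poly g) {V : List Bool × List (List Bool) → Bool}
    (hV : Poly V) {Y : List Bool → Option (List Bool)} (hY : Poly Y) (p : Polynomial ℕ) :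
    Poly (chk3 g V Y p) := by
  have e1 : Poly (fun t : List (List Bool) × G3 => t.1) := NPC.Poly.fst NPC.Poly.id
  have e2 : Poly (fun t : List (List Bool) × G3 => t.2) := NPC.Poly.snd NPC.Poly.id
  have en := NPC.Poly.fst e2
  have e3 := NPC.Poly.snd e2
  have eI := NPC.Poly.fst (NPC.Poly.fst e3)
  have eI' := NPC.Poly.snd (NPC.Poly.fst e3)
  have eu := NPC.Poly.fst (NPC.Poly.fst (NPC.Poly.snd e3))
  have eu' := NPC.Poly.snd (NPC.Poly.fst (NPC.Poly.snd e3))
  have ei := NPC.Poly.fst (NPC.Poly.snd (NPC.Poly.snd e3))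
  have ee := NPC.Poly.snd (NPC.Poly.snd (NPC.Poly.snd e3))
  have z1 := hY.comp (H622R2.poly_pairBits (bits_poly.comp (sel_poly e1 eI)) eu)
  have z2 := hY.comp (H622R2.poly_pairBits (bits_poly.comp (sel_poly e1 eI')) eu')
  unfold chk3
  exact NPC.Poly.and (NPC.Poly.and (side3_poly hV p en e1 eI eu) (side3_poly hV p en e1 eI' eu'))
    (NPC.Poly.and (NPC.Poly.and (NPC.Poly.decide_lt (NPC.Poly.add ei (NPC.Poly.const 2))
      (NPC.Poly.length e1)) (NPC.Poly.not (NPC.Poly.decide_eq (hg.comp (val_poly eI ei ee))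
        (hg.comp (val_poly eI' ei ee)))))
      (NPC.Poly.and (isSome_poly z1) (NPC.Poly.decide_eq z1 z2)))

theorem yc3_poly {g : List Bool → Bool} (hg : Poly g) (y1 y0 : List Bool)
    {V : List Bool × List (List Bool) → Bool} (hV : Poly V)
    {Y : List Bool → Option (List Bool)} (hY : Poly Y) (p : Polynomial ℕ) :
    Poly (yc3 g y1 y0 V Y p) := by
  have e1 : Poly (fun z : List Bool => dl (unpair z).1) := dl_poly.comp (NPC.Poly.fst poly_unpair)
  have e2 : Poly (fun z : List Bool => dg3 (unpair z).2) :=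
    dg3_poly.comp (NPC.Poly.snd poly_unpair)
  have e4 := NPC.Poly.snd (NPC.Poly.snd (NPC.Poly.snd e2))
  unfold yc3
  exact NPC.Poly.cond ((chk3_poly hg hV hY p).comp (NPC.Poly.pair
    (NPC.Poly.cons (NPC.Poly.const y0) (NPC.Poly.cons (NPC.Poly.const y1) e1)) e2))
    (NPC.Poly.some (NPC.Poly.cond (NPC.Poly.snd e4)
      (NPC.Poly.add (NPC.Poly.fst e4) (NPC.Poly.length e1)) (NPC.Poly.fst e4)))
    (NPC.Poly.const none)

/-! ### The family of vectors -/

/-- The vectors with exactly one one and the vectors with exactly one zero. -/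
def L3 : Set (List Bool) := lang (fun q : ℕ × (ℕ × ℕ) =>
  q.2.2 = q.2.1 ∨ (q.1 ≤ q.2.1 ∧ q.2.2 + q.1 ≠ q.2.1))

theorem l3_inP : InP L3 := by
  refine inPP_of (d := fun q : ℕ × (ℕ × ℕ) => decide (q.2.2 = q.2.1) ||
    (decide (q.1 ≤ q.2.1) && !decide (q.2.2 + q.1 = q.2.1))) ?_ (fun q => by simp)
  have e1 : Poly (fun q : ℕ × (ℕ × ℕ) => q.1) := NPC.Poly.fst NPC.Poly.id
  have e2 : Poly (fun q : ℕ × (ℕ × ℕ) => q.2.1) := NPC.Poly.fst (NPC.Poly.snd NPC.Poly.id)
  have e3 : Poly (fun q : ℕ × (ℕ × ℕ) => q.2.2) := NPC.Poly.snd (NPC.Poly.snd NPC.Poly.id)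
  exact NPC.Poly.or (NPC.Poly.decide_eq e3 e2) (NPC.Poly.and (NPC.Poly.decide_le e1 e2)
    (NPC.Poly.not (NPC.Poly.decide_eq (NPC.Poly.add e3 e1) e2)))

theorem vec_l3 {m i : ℕ} (hi : i < m) (e : Bool) :
    vec L3 m (bif e then i + m else i) =
      (List.range m).map (fun j => bif decide (j = i) then !e else e) := by
  classical
  unfold vec
  refine List.map_congr_left fun j hj => ?_
  have hj' := List.mem_range.1 hj
  cases e
  · simp only [cond_false, Bool.not_false]
    cases h1 : decide (j = i)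
    · change _ = false
      refine decide_eq_false fun h => ?_
      rcases bits_mem_lang.1 h with h2 | ⟨h2, -⟩
      · simp only at h2
        exact (decide_eq_false_iff_not.1 h1) h2
      · simp only at h2
        omega
    · change _ = true
      exact decide_eq_true (bits_mem_lang.2 (Or.inl (decide_eq_true_iff.1 h1)))
  · simp only [cond_true, Bool.not_true]
    cases h1 : decide (j = i)
    · change _ = true
      have h2 := decide_eq_false_iff_not.1 h1
      exact decide_eq_true (bits_mem_lang.2 (Or.inr ⟨by simp only; omega, by simp only; omega⟩))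
    · change _ = false
      have h2 := decide_eq_true_iff.1 h1
      refine decide_eq_false fun h => ?_
      rcases bits_mem_lang.1 h with h3 | ⟨-, h3⟩
      · simp only at h3
        omega
      · simp only at h3
        omega

/-! ### Soundness -/

variable {g : List Bool → Bool} {A B : Set (List Bool)} {V : List Bool × List (List Bool) → Bool}
  {Y : List Bool → Option (List Bool)} {p : Polynomial ℕ}

theorem side3_iff (nn : List Bool) (qs : List (List Bool)) (P : List ℕ) (u : List Bool) :
    side3 V p nn qs P u = true ↔ V (nn, sel qs P) = true ∧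
      u.length ≤ p.eval (bits (sel qs P)).length ∧ ∀ a ∈ P, a < qs.length := by
  unfold side3
  simp only [Bool.and_eq_true, decide_eq_true_eq, List.all_eq_true]

theorem chk3_sound {y1 y0 : List Bool} (h1 : y1 ∈ A) (h0 : y0 ∉ A)
    (hs : ∀ (nn : List Bool) (L : List (List Bool)), V (nn, L) = true → ∀ v, SOut Y p (bits L) v →
      (v ∈ B ↔ Val g A L))
    (qs : List (List Bool)) (G : G3) (h : chk3 g V Y p (y0 :: y1 :: qs, G) = true) :
    G.2.2.2.1 < qs.length ∧
      Exclude L3 A qs (bif G.2.2.2.2 then G.2.2.2.1 + qs.length else G.2.2.2.1) := by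
  obtain ⟨nn, ⟨P, P'⟩, ⟨u, u'⟩, i, e⟩ := G
  unfold chk3 at h
  simp only [Bool.and_eq_true, decide_eq_true_eq, Bool.not_eq_true', decide_eq_false_iff_not]
    at h
  obtain ⟨⟨a1, a2⟩, ⟨a3, a4⟩, a5, a6⟩ := h
  obtain ⟨b1, b2, b3⟩ := (side3_iff _ _ _ _).1 a1
  obtain ⟨c1, c2, c3⟩ := (side3_iff _ _ _ _).1 a2
  have hl : (y0 :: y1 :: qs).length = qs.length + 2 := rfl
  rw [hl] at a3 b3 c3
  have hi : i < qs.length := by omega
  refine ⟨hi, fun h5 => a4 ?_⟩
  simp only at h5
  rw [vec_l3 hi] at h5
  have h6 : ∀ j < qs.length, (qs.getD j [] ∈ A ↔ (bif decide (j = i) then !e else e) = true) := by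
    classical
    intro j hj
    have h7 := congrArg (fun l => l.getD j false) h5
    simp only [answers] at h7
    rw [List.getD_eq_getElem _ _ (by simpa using hj), List.getD_eq_getElem _ _ (by simpa using hj),
      List.getElem_map, List.getElem_map, List.getElem_range] at h7
    rw [List.getD_eq_getElem _ _ hj, ← h7, decide_eq_true_iff]
  obtain ⟨v, hv⟩ := Option.isSome_iff_exists.1 a5
  have e1 := hs nn _ b1 v ⟨u, b2, hv⟩
  have e2 := hs nn _ c1 v ⟨u', c2, a6 ▸ hv⟩
  have e3 : Val g A (sel (y0 :: y1 :: qs) P) ↔ Val g A (sel (y0 :: y1 :: qs) P') :=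
    e1.symm.trans e2
  unfold Val at e3
  rw [answers_sel h1 h0 h6 P b3, answers_sel h1 h0 h6 P' c3] at e3
  exact Bool.eq_iff_iff.2 e3

end Pool.Agent.TH684.DI
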