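import Pool.Agent.TH684.DI.Sens2

/-!
# Compression of sensitive functions of the answers: the theorems
-/

set_option autoImplicit false

namespace Pool.Agent.TH684.DI

open Pool.Agent.NPC Pool.Agent.H251R5.PQ Pool.Agent.W901.AT Pool.Agent.H579R2.Spt
open Pool.Agent.TH684.EX Pool.Agent.TH684.CX
open Pool.Agent.TH684.LT (exists_pow_add_bound)
open Pool.Agent.W920.LN (isSome_poly)

variable {g : List Bool → Bool} {A B : Set (List Bool)}

/-- The test for distillations. -/
def vd (t : List Bool × List (List Bool)) : Bool := !decide (t.2 = [])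

theorem vd_poly : Poly vd :=
  NPC.Poly.not (NPC.Poly.decide_eq (NPC.Poly.snd NPC.Poly.id) (NPC.Poly.const []))

theorem nfeasible_of_ndistills {y1 y0 : List Bool} (h1 : y1 ∈ A) (h0 : y0 ∉ A) (hg : Poly g)
    (hs : PolySens g) (h : NDistills (Val g A) B) : NFeasible (Exclude L3 A) := by
  obtain ⟨Y, p, q, hY, h⟩ := h
  obtain ⟨d, hs⟩ := hs
  refine nfeasible_of_guess (B := B) (V := vd) (Y := Y) (p := p) h1 h0 hg vd_poly
    (poly_of_polyTime hY) (fun nn L hL v hv => ?_)
    (2 * ((2 * (q.comp (Polynomial.X + Polynomial.C (y0.length + y1.length)) + 1)) ^ d +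
      Polynomial.C d) + Polynomial.X) (fun n m hm => ?_)
  · unfold vd at hL
    simp only [Bool.not_eq_true', decide_eq_false_iff_not] at hL
    have hmax : ∀ y ∈ L, y.length ≤ (bits L).length := fun y hy => by
      have e1 := sz_le_of_mem hy
      have e2 := length_lt_sz y
      have e3 := bits_length L
      omega
    exact ((h _ L hL hmax).2 v hv).2
  · simp only [Polynomial.eval_add, Polynomial.eval_mul, Polynomial.eval_ofNat, Polynomial.eval_pow,
      Polynomial.eval_comp, Polynomial.eval_X, Polynomial.eval_C, Polynomial.eval_one] at hm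
    set S := q.eval (n + (y0.length + y1.length)) with hS
    obtain ⟨w, hw1, hw2⟩ := hs (2 * (S + 1))
    obtain ⟨e, he⟩ := exists_posn g w
    have hK := posn_length_le g w e
    have hK2 : S + 1 ≤ (posn g w e).length := by omega
    refine ⟨[], w, S, 2, e, Nat.pow_le_pow_right (by norm_num) hK2, by omega, by omega, by simp,
      by omega, fun L hL hL2 => ?_⟩
    have hne : L ≠ [] := by
      rintro rfl
      rw [List.length_nil] at hL
      omega
    obtain ⟨⟨v, hv⟩, h3⟩ := h (n + (y0.length + y1.length)) L hne (fun y hy => by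
      have := hL2 y hy
      omega)
    exact ⟨by simp [vd, hne], v, hv, (h3 v hv).1⟩

/-- The test for compressions. -/
noncomputable def vc (b : ℕ) (t : List Bool × List (List Bool)) : Bool :=
  decide (t.2.length = (Polynomial.X ^ b + Polynomial.C b : Polynomial ℕ).eval t.1.length) &&
    t.2.all (fun y => decide (y.length ≤ t.1.length))

theorem vc_poly (b : ℕ) : Poly (vc b) := by
  have e1 : Poly (fun t : List Bool × List (List Bool) => t.1) := NPC.Poly.fst NPC.Poly.id
  have e2 : Poly (fun t : List Bool × List (List Bool) => t.2) := NPC.Poly.snd NPC.Poly.id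
  refine NPC.Poly.and (NPC.Poly.decide_eq (NPC.Poly.length e2)
    ((UPoly.length e1).eval _).toPoly) ?_
  exact NPC.Poly.all (l := fun t : List Bool × List (List Bool) => t.2)
    (p := fun t y => decide (y.length ≤ t.1.length)) e2
    (NPC.Poly.decide_le (NPC.Poly.length (NPC.Poly.snd NPC.Poly.id))
      (NPC.Poly.length (e1.comp (NPC.Poly.fst NPC.Poly.id))))

theorem vc_iff (b : ℕ) (nn : List Bool) (L : List (List Bool)) : vc b (nn, L) = true ↔
    L.length = nn.length ^ b + b ∧ ∀ y ∈ L, y.length ≤ nn.length := by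
  unfold vc
  simp only [Bool.and_eq_true, decide_eq_true_eq, List.all_eq_true, Polynomial.eval_add,
    Polynomial.eval_pow, Polynomial.eval_X, Polynomial.eval_C]

theorem nfeasible_of_ncompresses' {y1 y0 : List Bool} (h1 : y1 ∈ A) (h0 : y0 ∉ A) (hg : Poly g)
    (hs : LinSens g) (h : NCompresses (Val g A) B) : NFeasible (Exclude L3 A) := by
  obtain ⟨Y, p, b, c, hY, h⟩ := h
  obtain ⟨d, hs⟩ := hs
  refine nfeasible_of_guess (B := B) (V := vc b) (Y := Y) (p := p) h1 h0 hg (vc_poly b)
    (poly_of_polyTime hY) (fun nn L hL v hv => ?_)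
    (((Polynomial.X + Polynomial.C (y0.length + y1.length)) ^ b + Polynomial.C b) *
      ((2 * (Polynomial.X + Polynomial.C (y0.length + y1.length) + 2) ^ c) ^ (2 * d)) +
      Polynomial.X) (fun n m hm => ?_)
  · obtain ⟨h2, h3⟩ := (vc_iff _ _ _).1 hL
    exact ((h _ L h2 h3).2 v hv).2
  · simp only [Polynomial.eval_add, Polynomial.eval_mul, Polynomial.eval_ofNat, Polynomial.eval_pow,
      Polynomial.eval_X, Polynomial.eval_C] at hm
    set n' := n + (y0.length + y1.length) with hn'
    set t := n' ^ b + b with ht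
    have ht1 : 1 ≤ t := by
      rcases Nat.eq_zero_or_pos b with rfl | hb
      · simp [ht]
      · omega
    obtain ⟨w, hw1, hw2⟩ := hs t ht1
    obtain ⟨e, he⟩ := exists_posn g w
    set K := (posn g w e).length with hK
    have hKt : K ≤ t := hw1 ▸ posn_length_le g w e
    have htK : t ≤ 2 * d * K := by
      calc t ≤ d * sens g w := hw2
        _ ≤ d * (2 * K) := Nat.mul_le_mul_left _ he
        _ = 2 * d * K := by ring
    set a := 2 * (n' + 2) ^ c with ha
    have ha1 : 1 ≤ a := by
      have h0 : 0 < (n' + 2) ^ c := pow_pos (show 0 < n' + 2 by omega) c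
      omega
    have hcount : 2 ^ (c * t * Nat.log 2 (n' + 2) + 1) ≤ a ^ t := by
      have h1 : 2 ^ Nat.log 2 (n' + 2) ≤ n' + 2 := Nat.pow_log_le_self 2 (by omega)
      have h2 : 2 ^ (c * t * Nat.log 2 (n' + 2)) ≤ ((n' + 2) ^ c) ^ t := by
        rw [← pow_mul, show c * t * Nat.log 2 (n' + 2) = Nat.log 2 (n' + 2) * (c * t) by ring,
          pow_mul]
        exact Nat.pow_le_pow_left h1 _
      calc 2 ^ (c * t * Nat.log 2 (n' + 2) + 1) =
            2 ^ 1 * 2 ^ (c * t * Nat.log 2 (n' + 2)) := by ring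
        _ ≤ 2 ^ t * ((n' + 2) ^ c) ^ t :=
            Nat.mul_le_mul (Nat.pow_le_pow_right (by norm_num) ht1) h2
        _ = a ^ t := (mul_pow _ _ _).symm
    have hM1 : 1 ≤ a ^ (2 * d) := Nat.one_le_pow _ _ ha1
    have h4 : t ≤ t * a ^ (2 * d) := Nat.le_mul_of_pos_right _ hM1
    have h5 : K * a ^ (2 * d) ≤ t * a ^ (2 * d) := Nat.mul_le_mul_right _ hKt
    refine ⟨List.replicate n' true, w, c * t * Nat.log 2 (n' + 2), a ^ (2 * d), e, ?_,
      h5.trans (by omega), by omega, by rw [List.length_replicate]; omega, by omega, fun L hL hL2 => ?_⟩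
    · calc 2 ^ (c * t * Nat.log 2 (n' + 2) + 1) ≤ a ^ t := hcount
        _ ≤ a ^ (2 * d * K) := Nat.pow_le_pow_right ha1 htK
        _ = (a ^ (2 * d)) ^ K := pow_mul _ _ _
    · have hL3 : ∀ y ∈ L, y.length ≤ n' := fun y hy => by
        have := hL2 y hy
        omega
      obtain ⟨⟨v, hv⟩, h3⟩ := h n' L (by rw [hL, hw1]) hL3
      refine ⟨(vc_iff _ _ _).2 ⟨by rw [List.length_replicate, hL, hw1],
        by rw [List.length_replicate]; exact hL3⟩, v, hv, ?_⟩
      have h6 := (h3 v hv).1
      rwa [hL, hw1] at h6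

/-! ### The theorems -/

theorem exists_mem_of_nphard (hA : NPHard A) : ∃ y1 y0 : List Bool, y1 ∈ A ∧ y0 ∉ A := by
  have h : InP (lang (fun b : Bool => b = true)) :=
    inPP_of (d := fun b : Bool => b) NPC.Poly.id fun b => Iff.rfl
  obtain ⟨f, -, hf⟩ := hA _ h.inNP
  exact ⟨f (bits true), f (bits false), (hf _).1 (bits_mem_lang.2 rfl),
    fun h1 => by simpa using bits_mem_lang.1 ((hf _).2 h1)⟩

/-- **Distillation of a sensitive function of the answers gives `NP = coNP`.** -/
theorem compl_of_sens (hg : Poly g) (hs : PolySens g) (hA : NPHard A)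
    (h : NDistills (Val g A) B) {S : Set (List Bool)} (hS : InNP S) : InNP Sᶜ := by
  obtain ⟨y1, y0, h1, h0⟩ := exists_mem_of_nphard hA
  exact compl_of_nfeasible hA l3_inP (nfeasible_of_ndistills h1 h0 hg hs h) hS

/-- **Compression of a sensitive function of the answers gives `NP = coNP`.** -/
theorem compl_of_linsens (hg : Poly g) (hs : LinSens g) (hA : NPHard A)
    (h : NCompresses (Val g A) B) {S : Set (List Bool)} (hS : InNP S) : InNP Sᶜ := by
  obtain ⟨y1, y0, h1, h0⟩ := exists_mem_of_nphard hA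
  exact compl_of_nfeasible hA l3_inP (nfeasible_of_ncompresses' h1 h0 hg hs h) hS

theorem poly_of_singleton (hg : PolyTime (fun z => [g z])) : Poly g := by
  have h : Poly (fun z : List Bool => ([g z] : List Bool)) := PIso.poly_iff.2 hg
  have h2 : Poly (fun z : List Bool => ([g z] : List Bool).getD 0 false) :=
    NPC.Poly.getD h (NPC.Poly.const 0) (NPC.Poly.const false)
  exact h2.congr fun z => rfl

theorem sens_tfae (hg : Poly g) (hs : PolySens g) : List.TFAE
    [∀ S : Set (List Bool), InNP S → InNP Sᶜ,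
      ∃ A B : Set (List Bool), NPHard A ∧ NDistills (Val g A) B,
      ∀ A : Set (List Bool), InNP A → ∃ B, NDistills (Val g A) B] := by
  tfae_have 1 → 3 := fun h A hA => ⟨_, ndistills_of_both hA (h A hA) hg fun _ => Iff.rfl⟩
  tfae_have 3 → 2 := fun h => by
    obtain ⟨A, h1, h2⟩ := exists_nphard
    obtain ⟨B, hB⟩ := h A h1
    exact ⟨A, B, h2, hB⟩
  tfae_have 2 → 1 := fun ⟨A, B, hA, h⟩ S hS => compl_of_sens hg hs hA h hS
  tfae_finish

theorem linsens_tfae (hg : Poly g) (hs : LinSens g) : List.TFAE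
    [∀ S : Set (List Bool), InNP S → InNP Sᶜ,
      ∃ A B : Set (List Bool), NPHard A ∧ NDistills (Val g A) B,
      ∃ A B : Set (List Bool), NPHard A ∧ NCompresses (Val g A) B,
      ∀ A : Set (List Bool), InNP A → ∃ B, NDistills (Val g A) B] := by
  tfae_have 1 → 4 := fun h A hA => ⟨_, ndistills_of_both hA (h A hA) hg fun _ => Iff.rfl⟩
  tfae_have 4 → 2 := fun h => by
    obtain ⟨A, h1, h2⟩ := exists_nphard
    obtain ⟨B, hB⟩ := h A h1
    exact ⟨A, B, h2, hB⟩
  tfae_have 2 → 3 := fun ⟨A, B, hA, h⟩ => ⟨A, B, hA, ncompresses_of_ndistills h⟩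
  tfae_have 3 → 1 := fun ⟨A, B, hA, h⟩ S hS => compl_of_linsens hg hs hA h hS
  tfae_finish

end Pool.Agent.TH684.DI
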