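import Pool.Agent.TH684.DI.Symm
import Pool.Agent.TH762.NS.Law
import Pool.Agent.TH762.XC.Laws
import Pool.Agent.W903.GP.Hier

/-!
# Distillation of languages which are hard for polynomial space or for exponential time
-/

set_option autoImplicit false

namespace Pool.Agent.TH684.DI

open Pool.Agent.NPC Pool.Agent.H251R5.PQ Pool.Agent.W901.AT Pool.Agent.H579R2.Spt
open Pool.Agent.TH684.EX Pool.Agent.TH684.CX
open Pool.Agent.W901.NU
open Pool.Agent.H623R2.PS (InPSPACE PSPACEHard)
open Pool.Agent.TH762.XC (FeasibleIn ComputableIn computableIn_of_cfn exp_sub_of_excl)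
open Pool.Agent.H820R2.SS (InEXPTIME)

variable {g : List Bool → Bool} {A B : Set (List Bool)}

theorem exists_mem_of_pspacehard (hA : PSPACEHard A) : ∃ y1 y0 : List Bool, y1 ∈ A ∧ y0 ∉ A := by
  have h : InPSPACE (lang (fun b : Bool => b = true)) :=
    cl_pspace.ofP (inPP_of (d := fun b : Bool => b) NPC.Poly.id fun b => Iff.rfl)
  obtain ⟨f, -, hf⟩ := hA _ h
  exact ⟨f (bits true), f (bits false), (hf _).1 (bits_mem_lang.2 rfl),
    fun h1 => by simpa using bits_mem_lang.1 ((hf _).2 h1)⟩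

/-- **Distillation of a sensitive function for a `PSPACE`-hard set gives `NP = PSPACE`.** -/
theorem inNP_of_sens (hg : Poly g) (hs : PolySens g) (hA : PSPACEHard A)
    (h : NDistills (Val g A) B) {S : Set (List Bool)} (hS : InPSPACE S) : InNP S := by
  obtain ⟨y1, y0, h1, h0⟩ := exists_mem_of_pspacehard hA
  exact TH762.NS.inNP_of_nfeasible hA l3_inP (nfeasible_of_ndistills h1 h0 hg hs h) hS

theorem inNP_of_linsens (hg : Poly g) (hs : LinSens g) (hA : PSPACEHard A)
    (h : NCompresses (Val g A) B) {S : Set (List Bool)} (hS : InPSPACE S) : InNP S := by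
  obtain ⟨y1, y0, h1, h0⟩ := exists_mem_of_pspacehard hA
  exact TH762.NS.inNP_of_nfeasible hA l3_inP (nfeasible_of_ncompresses' h1 h0 hg hs h) hS

theorem pspace_tfae (hg : Poly g) (hs : PolySens g) : List.TFAE
    [∀ S : Set (List Bool), InPSPACE S → InNP S,
      ∃ A B : Set (List Bool), PSPACEHard A ∧ NDistills (Val g A) B,
      ∀ A : Set (List Bool), InPSPACE A → ∃ B, NDistills (Val g A) B] := by
  tfae_have 1 → 3 := fun h A hA => ⟨_, ndistills_of_both (h A hA)
    (h _ (TH762.NS.compl_pspace hA)) hg fun _ => Iff.rfl⟩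
  tfae_have 3 → 2 := fun h => by
    obtain ⟨B, hB⟩ := h _ node_pspace
    exact ⟨_, B, node_hard, hB⟩
  tfae_have 2 → 1 := fun ⟨A, B, hA, h⟩ S hS => inNP_of_sens hg hs hA h hS
  tfae_finish

/-! ### Exponential time -/

/-- If `NP = coNP` then `NP` has the closure properties. -/
theorem cl_np (h : ∀ S : Set (List Bool), InNP S → InNP Sᶜ) : Cl InNP :=
  ⟨Pool.Agent.W903.GP.nice_np.ofP, Pool.Agent.W903.GP.nice_np.pre,
    Pool.Agent.W903.GP.nice_np.inter, fun h' => h _ h', Pool.Agent.W903.GP.nice_np.ex⟩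

open Classical in
/-- The smallest output. -/
noncomputable def mo (Y : List Bool → Option ℕ) (p : Polynomial ℕ) (z : List Bool) : ℕ :=
  if h : ∃ l, NOut Y p z l then Nat.find h else 0

theorem mo_spec {Y : List Bool → Option ℕ} {p : Polynomial ℕ} {z : List Bool}
    (h : ∃ l, NOut Y p z l) : NOut Y p z (mo Y p z) := by
  classical
  unfold mo
  rw [dif_pos h]
  exact Nat.find_spec h

theorem mo_iff {Y : List Bool → Option ℕ} {p : Polynomial ℕ} {z : List Bool} (l : ℕ) :
    mo Y p z = l ↔ (NOut Y p z l ∧ ¬ ∃ l' : ℕ, sz l' ≤ 2 * sz l ∧ (l' < l ∧ NOut Y p z l')) ∨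
      (l = 0 ∧ ¬ ∃ w : List Bool, w.length ≤ p.eval z.length ∧
        (Y (pairBits z w)).isSome = true) := by
  classical
  constructor
  · rintro rfl
    by_cases h : ∃ l, NOut Y p z l
    · refine Or.inl ⟨mo_spec h, ?_⟩
      rintro ⟨l', -, h2⟩
      unfold mo at h2
      rw [dif_pos h] at h2
      exact Nat.find_min h h2.1 h2.2
    · refine Or.inr ⟨by unfold mo; rw [dif_neg h], ?_⟩
      rintro ⟨w, hw, h2⟩
      obtain ⟨l, hl⟩ := Option.isSome_iff_exists.1 h2
      exact h ⟨l, w, hw, hl⟩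
  · rintro (⟨h1, h2⟩ | ⟨h1, h2⟩)
    · have h : ∃ l, NOut Y p z l := ⟨l, h1⟩
      unfold mo
      rw [dif_pos h, Nat.find_eq_iff]
      exact ⟨h1, fun l' hl' h3 => h2 ⟨l', sz_nat_mono_le hl'.le, hl', h3⟩⟩
    · have h : ¬ ∃ l, NOut Y p z l := by
        rintro ⟨l', w, hw, h4⟩
        exact h2 ⟨w, hw, by rw [h4]; rfl⟩
      unfold mo
      rw [dif_neg h, h1]

theorem cpr_nout {Y : List Bool → Option ℕ} (hC : Cl InNP) (hY : Poly Y) (p : Polynomial ℕ) :
    CPr InNP (fun q : List Bool × ℕ => NOut Y p q.1 q.2) := by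
  have h1 : CPr InNP (fun t : (List Bool × ℕ) × List Bool =>
      (decide (t.2.length ≤ p.eval t.1.1.length) &&
        decide (Y (pairBits t.1.1 t.2) = some t.1.2)) = true) := by
    refine CPr.poly hC ?_
    have e1 : Poly (fun t : (List Bool × ℕ) × List Bool => t.1.1) :=
      NPC.Poly.fst (NPC.Poly.fst NPC.Poly.id)
    have e2 : Poly (fun t : (List Bool × ℕ) × List Bool => t.2) := NPC.Poly.snd NPC.Poly.id
    exact NPC.Poly.and (NPC.Poly.decide_le (NPC.Poly.length e2) ((UPoly.length e1).eval p).toPoly)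
      (NPC.Poly.decide_eq (hY.comp (H622R2.poly_pairBits e1 e2))
        (NPC.Poly.some (NPC.Poly.snd (NPC.Poly.fst NPC.Poly.id))))
  refine (h1.exW hC p).congr fun q => ?_
  constructor
  · rintro ⟨w, -, h2⟩
    simp only [Bool.and_eq_true, decide_eq_true_eq] at h2
    exact ⟨w, h2.1, h2.2⟩
  · rintro ⟨w, h2, h3⟩
    refine ⟨w, h2.trans (eval_mono p ?_), ?_⟩
    · have h4 := length_lt_sz q.1
      have h5 : sz q = sz q.1 + sz q.2 + 1 := sz_pair q.1 q.2
      omega
    · simp only [Bool.and_eq_true, decide_eq_true_eq]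
      exact ⟨h2, h3⟩

theorem cpr_some {Y : List Bool → Option ℕ} (hC : Cl InNP) (hY : Poly Y) (p : Polynomial ℕ) :
    CPr InNP (fun z : List Bool => ∃ w : List Bool, w.length ≤ p.eval z.length ∧
      (Y (pairBits z w)).isSome = true) := by
  have h1 : CPr InNP (fun t : List Bool × List Bool =>
      (decide (t.2.length ≤ p.eval t.1.length) && (Y (pairBits t.1 t.2)).isSome) = true) := by
    refine CPr.poly hC ?_
    have e1 : Poly (fun t : List Bool × List Bool => t.1) := NPC.Poly.fst NPC.Poly.id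
    have e2 : Poly (fun t : List Bool × List Bool => t.2) := NPC.Poly.snd NPC.Poly.id
    exact NPC.Poly.and (NPC.Poly.decide_le (NPC.Poly.length e2) ((UPoly.length e1).eval p).toPoly)
      (Pool.Agent.W920.LN.isSome_poly (hY.comp (H622R2.poly_pairBits e1 e2)))
  refine (h1.exW hC p).congr fun z => ?_
  constructor
  · rintro ⟨w, -, h2⟩
    simp only [Bool.and_eq_true, decide_eq_true_eq] at h2
    exact ⟨w, h2.1, h2.2⟩
  · rintro ⟨w, h2, h3⟩
    refine ⟨w, h2.trans (eval_mono p (length_lt_sz z).le), ?_⟩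
    simp only [Bool.and_eq_true, decide_eq_true_eq]
    exact ⟨h2, h3⟩

theorem cfn_mo {Y : List Bool → Option ℕ} (hC : Cl InNP) (hY : Poly Y) (p : Polynomial ℕ) :
    CFn InNP (fun z : List Bool => mo Y p z) := by
  obtain ⟨q, hq⟩ := hY.sz_le
  refine ⟨⟨q.comp (Polynomial.C 8 * (Polynomial.X + p) + 5) + 1, fun z => ?_⟩, ?_⟩
  · by_cases h : ∃ l, NOut Y p z l
    · obtain ⟨w, hw, hl⟩ := mo_spec h
      have h1 := hq (pairBits z w)
      rw [hl, sz_some] at h1
      have h2 : sz (pairBits z w) ≤ 8 * (sz z + p.eval (sz z)) + 5 := by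
        have h3 := sz_listBool_le (pairBits z w)
        have h4 : (pairBits z w).length = 2 * z.length + w.length + 1 :=
          Pool.Agent.W920.NL.pairBits_len z w
        have h5 := length_lt_sz z
        have h6 := eval_mono p h5.le
        omega
      have h3 := eval_mono q h2
      simp only [Polynomial.eval_add, Polynomial.eval_mul, Polynomial.eval_C, Polynomial.eval_one,
        Polynomial.eval_comp, Polynomial.eval_X, Polynomial.eval_ofNat]
      omega
    · have h1 : mo Y p z = 0 := by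
        unfold mo
        rw [dif_neg h]
      change sz (mo Y p z) ≤ _
      rw [h1]
      have h2 : sz (0 : ℕ) = 1 := rfl
      rw [h2]
      simp only [Polynomial.eval_add, Polynomial.eval_one]
      omega
  · have e1 : Poly (fun q : List Bool × ℕ => q.1) := NPC.Poly.fst NPC.Poly.id
    have e2 : Poly (fun q : List Bool × ℕ => q.2) := NPC.Poly.snd NPC.Poly.id
    have a2 := cpr_nout hC hY p
    have f1 : Poly (fun t : (List Bool × ℕ) × ℕ => (t.1.1, t.2)) :=
      NPC.Poly.pair (NPC.Poly.fst (NPC.Poly.fst NPC.Poly.id)) (NPC.Poly.snd NPC.Poly.id)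
    have a3 : CPr InNP (fun t : (List Bool × ℕ) × ℕ => NOut Y p t.1.1 t.2) :=
      a2.comp hC f1
    have a4 : CPr InNP (fun t : (List Bool × ℕ) × ℕ =>
        (decide (sz t.2 ≤ 2 * sz t.1.2) && decide (t.2 < t.1.2)) = true) := by
      refine CPr.poly hC (NPC.Poly.and ?_ (NPC.Poly.decide_lt (NPC.Poly.snd NPC.Poly.id)
        (NPC.Poly.snd (NPC.Poly.fst NPC.Poly.id))))
      have u1 : Poly (fun t : (List Bool × ℕ) × ℕ => (bits t.2).length) :=
        NPC.Poly.length (bits_poly.comp (NPC.Poly.snd NPC.Poly.id))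
      have u2 : Poly (fun t : (List Bool × ℕ) × ℕ => (bits t.1.2).length) :=
        NPC.Poly.length (bits_poly.comp (NPC.Poly.snd (NPC.Poly.fst NPC.Poly.id)))
      refine (NPC.Poly.decide_le u1 (NPC.Poly.mul (NPC.Poly.const 2) u2)).congr fun t => ?_
      rw [bits_length, bits_length]
    have a5 := ((a4.and hC a3).ex hC (2 * Polynomial.X)).not hC
    have a6 := ((cpr_some hC hY p).comp hC e1).not hC
    have a7 : CPr InNP (fun q : List Bool × ℕ => decide (q.2 = 0) = true) :=
      CPr.poly hC (NPC.Poly.decide_eq e2 (NPC.Poly.const 0))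
    refine ((a2.and hC a5).or hC (a7.and hC a6)).congr fun q => ?_
    rw [mo_iff q.2]
    refine or_congr (and_congr_right fun _ => not_congr ?_) (and_congr_left fun _ => by
      rw [decide_eq_true_eq])
    constructor
    · rintro ⟨l', -, h1, h2⟩
      simp only [Bool.and_eq_true, decide_eq_true_eq] at h1
      exact ⟨l', h1.1, h1.2, h2⟩
    · rintro ⟨l', h1, h2, h3⟩
      refine ⟨l', ?_, ?_, h3⟩
      · have h5 : sz q = sz q.1 + sz q.2 + 1 := sz_pair q.1 q.2
        simp only [Polynomial.eval_mul, Polynomial.eval_X, Polynomial.eval_ofNat]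
        omega
      · simp only [Bool.and_eq_true, decide_eq_true_eq]
        exact ⟨h1, h2⟩

/-- The code of the list. -/
def lcode (x : List Bool) : List Bool :=
  bits ((unbits (List (List Bool) × ℕ) x).getD ([], 0)).1

theorem lcode_poly : Poly lcode :=
  bits_poly.comp (NPC.Poly.fst (NPC.Poly.optGetD (g := fun _ => ([], 0)) poly_unbits
    (NPC.Poly.const _)))

theorem lcode_bits (qs : List (List Bool)) (a : ℕ) : lcode (bits (qs, a)) = bits qs := by
  unfold lcode
  rw [unbits_bits, Option.getD_some]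

/-- A nondeterministic algorithm gives a function with a graph in `NP`, if `NP = coNP`. -/
theorem feasibleIn_of_nfeasible (hC : Cl InNP) {T : List (List Bool) → ℕ → Prop}
    (h : NFeasible T) : FeasibleIn InNP T := by
  obtain ⟨Y, p, b, c, hY, h⟩ := h
  have hX := computableIn_of_cfn hC ((cfn_mo hC (poly_of_opt hY) p).compPoly hC lcode_poly)
  refine ⟨_, max b c, hX, fun n => ⟨n ^ b + b, 0, pow_add_mono (le_max_left b c) n,
    Nat.zero_le _, fun qs hqs hlen => ?_⟩⟩
  simp only [lcode_bits]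
  obtain ⟨h1, h2⟩ := h n qs hqs hlen
  obtain ⟨h3, h4⟩ := h2 _ (mo_spec h1)
  exact ⟨h3.trans (pow_add_mono (le_max_right b c) n), h4⟩

theorem nphard_of_exphard (hA : EXPHard A) : NPHard A := fun _ hL =>
  hA _ (Pool.Agent.H820R2.SS.inEXPTIME_of_inNP hL)

/-- **Distillation of a sensitive function for an `EXP`-hard set gives `NP = EXP`.** -/
theorem exp_inNP_of_sens (hg : Poly g) (hs : PolySens g) (hA : EXPHard A)
    (h : NDistills (Val g A) B) {S : Set (List Bool)} (hS : InEXPTIME S) : InNP S := by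
  have hN := nphard_of_exphard hA
  obtain ⟨y1, y0, h1, h0⟩ := exists_mem_of_nphard hN
  have hC := cl_np fun S hS => compl_of_sens hg hs hN h hS
  exact exp_sub_of_excl hC hA l3_inP
    (feasibleIn_of_nfeasible hC (nfeasible_of_ndistills h1 h0 hg hs h)) S hS

/-- Exponential time is closed under complement. -/
theorem compl_exp (hA : InEXPTIME A) : InEXPTIME Aᶜ := by
  classical
  obtain ⟨f, hf, hfA⟩ := node_exp_hard _ hA
  have h := Pool.Agent.TH762.XC.ttc_exp (fun x => [f x]) (fun q => !(q.2.getD 0 false))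
    (NPC.Poly.cons (PIso.poly_iff.2 hf) (NPC.Poly.const []))
    (NPC.Poly.not (NPC.Poly.getD (NPC.Poly.snd NPC.Poly.id) (NPC.Poly.const 0)
      (NPC.Poly.const false)))
  have e : Aᶜ = {x | (!((answers Pool.Agent.TH762.XC.NE [f x]).getD 0 false)) = true} := by
    ext x
    rw [Set.mem_compl_iff, hfA x]
    simp only [answers, Pool.Agent.TH762.XC.NE, List.map_cons, List.map_nil,
      List.getD_cons_zero, Set.mem_ofPred_eq, Bool.not_eq_true']
    exact decide_eq_false_iff_not.symm
  rw [e]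
  exact h

theorem exp_tfae (hg : Poly g) (hs : PolySens g) : List.TFAE
    [∀ S : Set (List Bool), InEXPTIME S → InNP S,
      ∃ A B : Set (List Bool), EXPHard A ∧ NDistills (Val g A) B,
      ∀ A : Set (List Bool), InEXPTIME A → ∃ B, NDistills (Val g A) B] := by
  tfae_have 1 → 3 := fun h A hA => ⟨_, ndistills_of_both (h A hA) (h _ (compl_exp hA)) hg
    fun _ => Iff.rfl⟩
  tfae_have 3 → 2 := fun h => by
    obtain ⟨B, hB⟩ := h _ node_exp
    exact ⟨_, B, node_exp_hard, hB⟩
  tfae_have 2 → 1 := fun ⟨A, B, hA, h⟩ S hS => exp_inNP_of_sens hg hs hA h hS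
  tfae_finish

end Pool.Agent.TH684.DI
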