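import Pool.Agent.TH684.DI.Main

/-!
# Distillation and `NP = coNP`
-/

set_option autoImplicit false

namespace Pool.Agent.TH684.DI

open Pool.Agent.NPC Pool.Agent.H251R5.PQ Pool.Agent.W901.AT Pool.Agent.H579R2.Spt
open Pool.Agent.TH684.EX Pool.Agent.TH684.CX
open Pool.Agent.TH684.LT (exists_pow_add_bound)

theorem ndistills_of_distills {Q : List (List Bool) → Prop} {B : Set (List Bool)}
    (h : Distills Q B) : NDistills Q B := by
  obtain ⟨D, q, hD, h⟩ := h
  refine ⟨fun z => some (D (unpair z).1), 0, q, polyTime_bits (NPC.Poly.some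
    ((PIso.poly_iff.2 hD).comp (NPC.Poly.fst poly_unpair))), fun n qs hne hlen => ?_⟩
  obtain ⟨h1, h2⟩ := h n qs hne hlen
  refine ⟨⟨D (bits qs), [], by simp, by simp only [unpair_pairBits]⟩, ?_⟩
  rintro v ⟨w, -, hv⟩
  simp only [unpair_pairBits, Option.some.injEq] at hv
  subst hv
  exact ⟨h1, h2⟩

theorem ncompresses_of_ndistills {Q : List (List Bool) → Prop} {B : Set (List Bool)}
    (h : NDistills Q B) : NCompresses Q B := by
  obtain ⟨Y, p, q, hY, h⟩ := h
  obtain ⟨b, hb⟩ := exists_pow_add_bound q
  refine ⟨Y, p, b, 1, hY, fun n qs hqs hlen => ?_⟩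
  have ht : 1 ≤ n ^ b + b := by
    rcases Nat.eq_zero_or_pos b with rfl | hb
    · simp
    · omega
  have hne : qs ≠ [] := by
    rintro rfl
    rw [List.length_nil] at hqs
    omega
  obtain ⟨h1, h2⟩ := h n qs hne hlen
  refine ⟨h1, fun v hv => ⟨?_, (h2 v hv).2⟩⟩
  have h3 := (h2 v hv).1
  have h4 := hb n
  have h5 : 1 ≤ Nat.log 2 (n + 2) := Nat.log_pos (by norm_num) (by omega)
  calc v.length ≤ qs.length := by omega
    _ ≤ 1 * qs.length * Nat.log 2 (n + 2) := by
        rw [one_mul]
        exact Nat.le_mul_of_pos_right _ h5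

/-! ### From `NP = coNP` to distillation -/

/-- The decisions for the strings of the list. -/
def dcs (D : List Bool × List Bool → Option Bool) (z : List Bool) : List (Option Bool) :=
  ((dl (unpair z).1).zip (dl (unpair z).2)).map D

/-- The algorithm that decides all strings. -/
def yd (D : List Bool × List Bool → Option Bool) (h : List Bool → Bool) (z : List Bool) :
    Option (List Bool) :=
  bif decide ((dl (unpair z).1).length = (dl (unpair z).2).length) &&
    (dcs D z).all Option.isSome then
      some [h ((dcs D z).map fun o => o.getD false)] else none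

theorem yd_poly {D : List Bool × List Bool → Option Bool} (hD : Poly D) {h : List Bool → Bool}
    (hh : Poly h) : Poly (yd D h) := by
  have e1 : Poly (fun z : List Bool => dl (unpair z).1) := dl_poly.comp (NPC.Poly.fst poly_unpair)
  have e2 : Poly (fun z : List Bool => dl (unpair z).2) := dl_poly.comp (NPC.Poly.snd poly_unpair)
  have hv : Poly (dcs D) :=
    NPC.Poly.map (l := fun z : List Bool => (dl (unpair z).1).zip (dl (unpair z).2))
      (F := fun _ q => D q) (NPC.Poly.zip e1 e2) (hD.comp (NPC.Poly.snd NPC.Poly.id))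
  unfold yd
  refine NPC.Poly.cond (NPC.Poly.and (NPC.Poly.decide_eq (NPC.Poly.length e1)
    (NPC.Poly.length e2)) ?_) (NPC.Poly.some (NPC.Poly.cons (hh.comp ?_) (NPC.Poly.const [])))
    (NPC.Poly.const none)
  · exact NPC.Poly.all (l := dcs D) (p := fun _ o => o.isSome) hv
      (Pool.Agent.W920.LN.isSome_poly (NPC.Poly.snd NPC.Poly.id))
  · exact NPC.Poly.map (l := dcs D) (F := fun _ o => o.getD false) hv
      (NPC.Poly.optGetD (NPC.Poly.snd NPC.Poly.id) (NPC.Poly.const false))

/-- If `A` is in `NP` and in `coNP`, then all the answers can be found nondeterministically. -/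
theorem ndistills_of_both {A : Set (List Bool)} (hA : InNP A) (hA' : InNP Aᶜ)
    {h : List Bool → Bool} (hh : Poly h) {Q : List (List Bool) → Prop}
    (hQ : ∀ qs, Q qs ↔ h (answers A qs) = true) : NDistills Q {[true]} := by
  classical
  obtain ⟨D, p, hD, hD1, hD2⟩ := decider_of_both hA hA'
  choose u t hu1 hu2 using hD1
  refine ⟨yd D h, Polynomial.X * (Polynomial.C 4 * p + 2) + 1, 1, polyTime_bits (yd_poly hD hh),
    fun n qs hne hlen => ⟨?_, ?_⟩⟩
  · have hz : ∀ y ∈ qs, y.length ≤ (bits qs).length := fun y hy => by
      have e1 := sz_le_of_mem hy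
      have e2 := length_lt_sz y
      have e3 := bits_length qs
      omega
    have hz2 : qs.length ≤ (bits qs).length := by
      have e1 := length_lt_sz qs
      have e3 := bits_length qs
      omega
    have hv : dcs D (pairBits (bits qs) (bits (qs.map u))) = qs.map fun y => some (t y) := by
      unfold dcs
      simp only [unpair_pairBits, dl_bits]
      clear hne hlen hz hz2
      induction qs with
      | nil => rfl
      | cons y qs ih =>
        rw [List.map_cons, List.zip_cons_cons, List.map_cons, List.map_cons, ih, hu2 y]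
    refine ⟨[h ((qs.map fun y => some (t y)).map fun o => o.getD false)], bits (qs.map u), ?_, ?_⟩
    · rw [bits_length]
      have h1 := sz_le_length_mul (qs.map u) (4 * p.eval (bits qs).length + 1) (fun v hv => by
        obtain ⟨y, hy, rfl⟩ := List.mem_map.1 hv
        have h2 := sz_listBool_le (u y)
        have h3 := hu1 y
        have h4 := eval_mono p (hz y hy)
        omega)
      rw [List.length_map] at h1
      simp only [Polynomial.eval_add, Polynomial.eval_mul, Polynomial.eval_C, Polynomial.eval_X,
        Polynomial.eval_ofNat, Polynomial.eval_one]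
      have h2 : qs.length * (4 * p.eval (bits qs).length + 1 + 1) ≤
          (bits qs).length * (4 * p.eval (bits qs).length + 2) := Nat.mul_le_mul_right _ hz2
      omega
    · unfold yd
      rw [hv]
      simp only [unpair_pairBits, dl_bits, List.length_map, decide_true, Bool.true_and]
      have h1 : (qs.map fun y => some (t y)).all Option.isSome = true := by
        rw [List.all_eq_true]
        intro o ho
        obtain ⟨y, _, rfl⟩ := List.mem_map.1 ho
        rfl
      rw [h1, cond_true]
  · rintro v ⟨w, -, hv⟩
    unfold yd at hv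
    rw [unpair_pairBits] at hv
    simp only [dl_bits] at hv
    set vs := dcs D (pairBits (bits qs) w) with hvs
    cases hb1 : (decide (qs.length = (dl w).length) && vs.all Option.isSome)
    · rw [hb1, cond_false] at hv
      exact absurd hv (by simp)
    · rw [hb1, cond_true] at hv
      rw [Bool.and_eq_true, decide_eq_true_eq, List.all_eq_true] at hb1
      obtain ⟨hwl, hall⟩ := hb1
      have hv' := Option.some.inj hv
      have h0 : vs = (qs.zip (dl w)).map D := by
        rw [hvs]
        unfold dcs
        simp only [unpair_pairBits, dl_bits]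
      have hvl : vs.length = qs.length := by
        rw [h0, List.length_map, List.length_zip]
        omega
      have hans : (vs.map fun o => o.getD false) = answers A qs := by
        refine List.ext_getElem (by simp [answers, hvl]) fun i h1 h2 => ?_
        rw [List.length_map] at h1
        have hi : i < qs.length := by omega
        have h3 : vs[i]'h1 = D (qs[i], (dl w)[i]'(by omega)) := by
          simp only [h0, List.getElem_map, List.getElem_zip]
        have h4 := hall _ (List.getElem_mem h1)
        obtain ⟨r, hr⟩ := Option.isSome_iff_exists.1 h4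
        rw [h3] at hr
        simp only [answers, List.getElem_map]
        rw [h3, hr, Option.getD_some]
        have h5 := hD2 _ _ _ hr
        cases r
        · exact (decide_eq_false fun h6 => by simpa using h5.2 h6).symm
        · exact (decide_eq_true (h5.1 rfl)).symm
      rw [hans] at hv'
      subst hv'
      refine ⟨by simp, ?_⟩
      rw [hQ]
      simp

theorem someIn_iff {A : Set (List Bool)} (qs : List (List Bool)) :
    SomeIn A qs ↔ decide (true ∈ answers A qs) = true := by
  classical
  rw [decide_eq_true_iff]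
  unfold SomeIn answers
  rw [List.mem_map]
  exact exists_congr fun y => and_congr_right fun _ => by rw [decide_eq_true_iff]

theorem allIn_iff {A : Set (List Bool)} (qs : List (List Bool)) :
    AllIn A qs ↔ (!decide (false ∈ answers A qs)) = true := by
  classical
  rw [Bool.not_eq_true', decide_eq_false_iff_not]
  unfold AllIn answers
  rw [List.mem_map]
  constructor
  · rintro h ⟨y, hy, hy2⟩
    exact (decide_eq_false_iff_not.1 hy2) (h y hy)
  · intro h y hy
    by_contra h2
    exact h ⟨y, hy, decide_eq_false h2⟩

theorem exists_nphard : ∃ A : Set (List Bool), InNP A ∧ NPHard A := by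
  obtain ⟨h1, h2⟩ := Pool.Agent.NPC.H545KS.sat_complete
  exact ⟨_, h1, h2⟩

/-- **OR-compression.** -/
theorem compl_of_or {A B : Set (List Bool)} (hA : NPHard A) (h : NCompresses (SomeIn A) B)
    {S : Set (List Bool)} (hS : InNP S) : InNP Sᶜ :=
  compl_of_nfeasible hA lunit_inP
    ((nfeasible_of_ncompresses h).mono fun qs i hi => exclude_of_notOnly qs i (notOnly_of_sep qs i hi))
    hS

/-- **AND-compression.** -/
theorem compl_of_and {A B : Set (List Bool)} (hA : NPHard A) (h : NCompresses (AllIn A) B)
    {S : Set (List Bool)} (hS : InNP S) : InNP Sᶜ :=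
  compl_of_nfeasible hA lco_inP ((nfeasible_of_ncompresses h).mono exclude_of_sep) hS

theorem or_tfae : List.TFAE
    [∀ S : Set (List Bool), InNP S → InNP Sᶜ,
      ∃ A B : Set (List Bool), NPHard A ∧ NDistills (SomeIn A) B,
      ∃ A B : Set (List Bool), NPHard A ∧ NCompresses (SomeIn A) B,
      ∀ A : Set (List Bool), InNP A → ∃ B, NDistills (SomeIn A) B] := by
  tfae_have 1 → 4 := fun h A hA => ⟨_, ndistills_of_both hA (h A hA)
    (NPC.Poly.decide_mem (NPC.Poly.const true) NPC.Poly.id) someIn_iff⟩
  tfae_have 4 → 2 := fun h => by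
    obtain ⟨A, h1, h2⟩ := exists_nphard
    obtain ⟨B, hB⟩ := h A h1
    exact ⟨A, B, h2, hB⟩
  tfae_have 2 → 3 := fun ⟨A, B, hA, h⟩ => ⟨A, B, hA, ncompresses_of_ndistills h⟩
  tfae_have 3 → 1 := fun ⟨A, B, hA, h⟩ S hS => compl_of_or hA h hS
  tfae_finish

theorem and_tfae : List.TFAE
    [∀ S : Set (List Bool), InNP S → InNP Sᶜ,
      ∃ A B : Set (List Bool), NPHard A ∧ NDistills (AllIn A) B,
      ∃ A B : Set (List Bool), NPHard A ∧ NCompresses (AllIn A) B,
      ∀ A : Set (List Bool), InNP A → ∃ B, NDistills (AllIn A) B] := by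
  tfae_have 1 → 4 := fun h A hA => ⟨_, ndistills_of_both hA (h A hA)
    (NPC.Poly.not (NPC.Poly.decide_mem (NPC.Poly.const false) NPC.Poly.id)) allIn_iff⟩
  tfae_have 4 → 2 := fun h => by
    obtain ⟨A, h1, h2⟩ := exists_nphard
    obtain ⟨B, hB⟩ := h A h1
    exact ⟨A, B, h2, hB⟩
  tfae_have 2 → 3 := fun ⟨A, B, hA, h⟩ => ⟨A, B, hA, ncompresses_of_ndistills h⟩
  tfae_have 3 → 1 := fun ⟨A, B, hA, h⟩ S hS => compl_of_and hA h hS
  tfae_finish

end Pool.Agent.TH684.DI
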